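import Pool.Agent.J4.H50.Herm.Dense

/-!
# Minkowski's bound with balls, and Hermite's constants of small dimension
-/

set_option autoImplicit false

namespace Pool.Agent.J4.H50.Herm

open Matrix Module MeasureTheory Metric
open Pool.Agent.H160R3.Herm Pool.Agent.R834.HA

theorem ball_set {n : ℕ} (r : ℝ) :
    {x : Fin n → ℝ | (∑ i, |x i| ^ (2 : ℝ)) ^ (1 / (2 : ℝ)) ≤ r} =
      (EuclideanSpace.equiv (Fin n) ℝ).toLinearMap '' closedBall (0 : EuclideanSpace ℝ (Fin n)) r := by
  ext x
  constructor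
  · intro hx
    refine ⟨(EuclideanSpace.equiv (Fin n) ℝ).symm x, ?_, rfl⟩
    rw [mem_closedBall, dist_zero_right, EuclideanSpace.norm_eq, Real.sqrt_eq_rpow]
    refine le_trans (le_of_eq ?_) hx
    congr 1
    refine Finset.sum_congr rfl fun i _ => ?_
    rw [Real.norm_eq_abs, Real.rpow_two]
    rfl
  · rintro ⟨y, hy, rfl⟩
    rw [mem_closedBall, dist_zero_right, EuclideanSpace.norm_eq, Real.sqrt_eq_rpow] at hy
    refine le_trans (le_of_eq ?_) hy
    congr 1
    refine Finset.sum_congr rfl fun i _ => ?_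
    rw [Real.norm_eq_abs, Real.rpow_two]
    rfl

theorem minkowski_ball {n : ℕ} (hn : 0 < n) (A : Matrix (Fin n) (Fin n) ℝ) (hA : A.det ≠ 0) (r : ℝ)
    (hr : 0 ≤ r) (h : |A.det| * 2 ^ n ≤ r ^ n * (√Real.pi ^ n / Real.Gamma ((n : ℝ) / 2 + 1))) :
    ∃ w : Fin n → ℤ, w ≠ 0 ∧ ∑ i, (Matrix.mulVec A (fun j => (w j : ℝ))) i ^ 2 ≤ r ^ 2 := by
  classical
  have hne : Nonempty (Fin n) := ⟨⟨0, hn⟩⟩
  have hnt : Nontrivial (Fin n → ℝ) := Function.nontrivial
  set b := Pi.basisFun ℝ (Fin n) with hb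
  set L : AddSubgroup (Fin n → ℝ) := (Submodule.span ℤ (Set.range b)).toAddSubgroup with hL
  have fund : IsAddFundamentalDomain L (ZSpan.fundamentalDomain b) volume :=
    ZSpan.isAddFundamentalDomain' b volume
  have hvol : volume (ZSpan.fundamentalDomain b) = 1 := by
    rw [ZSpan.volume_fundamentalDomain]
    have : (Matrix.of b) = (1 : Matrix (Fin n) (Fin n) ℝ) := by
      ext i j
      simp [hb, Matrix.one_apply, Pi.single_apply, eq_comm]
    rw [this]
    simp
  set f : (Fin n → ℝ) →ₗ[ℝ] (Fin n → ℝ) := Matrix.toLin' A⁻¹ with hf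
  have hdet : IsUnit A.det := isUnit_iff_ne_zero.mpr hA
  have hfdet : LinearMap.det f = (A.det)⁻¹ := by
    rw [hf, LinearMap.det_toLin', Matrix.det_nonsing_inv, Ring.inverse_eq_inv']
  set g : EuclideanSpace ℝ (Fin n) →ₗ[ℝ] (Fin n → ℝ) :=
    (EuclideanSpace.equiv (Fin n) ℝ).toLinearMap with hg
  set K : Set (Fin n → ℝ) := g '' closedBall (0 : EuclideanSpace ℝ (Fin n)) r with hK
  set s : Set (Fin n → ℝ) := f '' K with hs
  have h_symm : ∀ x ∈ s, -x ∈ s := by
    rintro _ ⟨_, ⟨y, hy, rfl⟩, rfl⟩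
    refine ⟨-g y, ⟨-y, ?_, by rw [map_neg]⟩, by rw [map_neg]⟩
    simpa using hy
  have h_conv : Convex ℝ s := ((convex_closedBall 0 r).linear_image g).linear_image f
  have h_cpt : IsCompact s :=
    ((isCompact_closedBall 0 r).image (LinearMap.continuous_of_finiteDimensional g)).image
      (LinearMap.continuous_of_finiteDimensional f)
  have hvolK : volume K =
      ENNReal.ofReal (r ^ n * (√Real.pi ^ n / Real.Gamma ((n : ℝ) / 2 + 1))) := by
    have h1 := MeasureTheory.volume_sum_rpow_le (Fin n) (p := 2) (by norm_num) r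
    rw [ball_set] at h1
    have h2 : 2 * Real.Gamma (1 / 2 + 1) = √Real.pi := by
      rw [Real.Gamma_add_one (by norm_num), Real.Gamma_one_half_eq]
      ring
    rw [hK, hg, h1, h2, Fintype.card_fin, ← ENNReal.ofReal_pow hr, ← ENNReal.ofReal_mul (by positivity)]
  have hμ : volume s = ENNReal.ofReal (|A.det|⁻¹ *
      (r ^ n * (√Real.pi ^ n / Real.Gamma ((n : ℝ) / 2 + 1)))) := by
    rw [hs, Measure.addHaar_image_linearMap, hfdet, hvolK,
      ← ENNReal.ofReal_mul (abs_nonneg _), abs_inv]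
  have hcov : volume (ZSpan.fundamentalDomain b) * 2 ^ (Module.finrank ℝ (Fin n → ℝ)) ≤
      volume s := by
    rw [hvol, one_mul, hμ, Module.finrank_fin_fun]
    have h2 : (2 : ENNReal) ^ n = ENNReal.ofReal (2 ^ n) := by
      rw [ENNReal.ofReal_pow (by norm_num)]; simp
    rw [h2]
    apply ENNReal.ofReal_le_ofReal
    rw [inv_mul_eq_div, le_div_iff₀ (abs_pos.mpr hA)]
    linarith
  have hcount : Countable L :=
    inferInstanceAs (Countable (Submodule.span ℤ (Set.range b)))
  have hdisc : DiscreteTopology L :=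
    inferInstanceAs (DiscreteTopology (Submodule.span ℤ (Set.range b)))
  obtain ⟨x, hx0, hx⟩ := exists_ne_zero_mem_lattice_of_measure_mul_two_pow_le_measure
    fund h_symm h_conv h_cpt hcov
  obtain ⟨_, ⟨y, hy, rfl⟩, hyx⟩ := hx
  have hxL : (x : Fin n → ℝ) ∈ Submodule.span ℤ (Set.range b) := x.2
  rw [b.mem_span_iff_repr_mem ℤ] at hxL
  choose w hw using hxL
  have hxw : (x : Fin n → ℝ) = fun j => (w j : ℝ) := by
    ext j
    have := hw j
    simp [hb] at this
    exact this.symm
  refine ⟨w, ?_, ?_⟩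
  · rintro rfl
    apply hx0
    apply Subtype.ext
    rw [hxw]
    ext j
    simp
  · have hAx : Matrix.mulVec A (x : Fin n → ℝ) = g y := by
      rw [← hyx, hf, Matrix.toLin'_apply, Matrix.mulVec_mulVec, Matrix.mul_nonsing_inv _ hdet,
        Matrix.one_mulVec]
    rw [← hxw, hAx]
    rw [mem_closedBall, dist_zero_right, EuclideanSpace.norm_eq] at hy
    have h1 := Real.sqrt_le_left (y := r) hr |>.1 hy
    refine le_trans (le_of_eq ?_) h1
    refine Finset.sum_congr rfl fun i _ => ?_
    rw [Real.norm_eq_abs, sq_abs]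
    rfl

theorem sup_pow {n : ℕ} (hn : 0 < n) {c : ℝ} (hc : 0 ≤ c)
    (h : ∀ A : Matrix (Fin n) (Fin n) ℝ, A.det ≠ 0 → minSq A ^ n ≤ c * A.det ^ 2) :
    hermite n ^ n ≤ c := by
  have hpos : 0 ≤ hermite n := (hermite_pos hn).le
  by_contra hcon
  rw [not_le] at hcon
  have hc' : (c ^ ((1 : ℝ) / n)) ^ n = c := by
    rw [← Real.rpow_natCast, ← Real.rpow_mul hc, one_div_mul_cancel (by positivity), Real.rpow_one]
  have h1 : c ^ ((1 : ℝ) / n) < hermite n := by
    by_contra h2
    rw [not_lt] at h2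
    have h3 := pow_le_pow_left₀ hpos h2 n
    rw [hc'] at h3
    linarith
  obtain ⟨A, hA, hAv⟩ := exists_lt_value h1
  have h2 := pow_lt_pow_left₀ hAv (by positivity) hn.ne'
  have h3 : Pool.Agent.R834.HA.inv A ^ n * A.det ^ 2 = minSq A ^ n := inv_pow hn hA
  have h4 := h A hA
  have h5 : 0 < A.det ^ 2 := by positivity
  rw [hc'] at h2
  have h6 : c * A.det ^ 2 < Pool.Agent.R834.HA.inv A ^ n * A.det ^ 2 :=
    mul_lt_mul_of_pos_right h2 h5
  linarith

/-- Minkowski's bound with balls -/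
theorem hermite_ball {n : ℕ} (hn : 0 < n) :
    hermite n ^ n ≤ (4 / Real.pi) ^ n * Real.Gamma ((n : ℝ) / 2 + 1) ^ 2 := by
  have hG : 0 < Real.Gamma ((n : ℝ) / 2 + 1) := Real.Gamma_pos_of_pos (by positivity)
  refine sup_pow hn (by positivity) fun A hA => ?_
  have hd : 0 < |A.det| := abs_pos.2 hA
  have hn' : (0 : ℝ) < n := by exact_mod_cast hn
  set q := |A.det| * 2 ^ n * Real.Gamma ((n : ℝ) / 2 + 1) / √Real.pi ^ n with hq
  have hq0 : 0 < q := by positivity
  set r := q ^ ((1 : ℝ) / n) with hr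
  have hr0 : 0 ≤ r := by positivity
  have hrn : r ^ n = q := by
    rw [hr, ← Real.rpow_natCast, ← Real.rpow_mul hq0.le, one_div_mul_cancel hn'.ne', Real.rpow_one]
  obtain ⟨w, hw, hwr⟩ := minkowski_ball hn A hA r hr0 (by
    rw [hrn, hq]
    apply le_of_eq
    field_simp)
  have h1 := pow_le_pow_left₀ (minSq_nonneg A) ((minSq_le A w hw).trans hwr) n
  refine h1.trans (le_of_eq ?_)
  have h2 : (r ^ 2) ^ n = q ^ 2 := by
    rw [← pow_mul, mul_comm, pow_mul, hrn]
  have h3 : (√Real.pi ^ n) ^ 2 = Real.pi ^ n := by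
    rw [← pow_mul, mul_comm, pow_mul, Real.sq_sqrt Real.pi_pos.le]
  rw [h2, hq, div_pow, h3, mul_pow, mul_pow, sq_abs, div_pow]
  have h4 : ((2 : ℝ) ^ n) ^ 2 = 4 ^ n := by
    rw [← pow_mul, mul_comm, pow_mul]
    norm_num
  rw [h4]
  ring

theorem gamma_bound (n : ℕ) (hn : 5 ≤ n) :
    Real.Gamma ((n : ℝ) / 2 + 1) ^ 2 ≤ (Real.pi / 9 * n) ^ n := by
  have hpi := Real.pi_gt_d2
  have hpi4 := Real.pi_lt_d2
  induction n using Nat.strong_induction_on with
  | _ n ih =>
    rcases Nat.lt_or_ge n 7 with h | h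
    · have h56 : n = 5 ∨ n = 6 := by omega
      rcases h56 with rfl | rfl
      · have h1 : Real.Gamma (((5 : ℕ) : ℝ) / 2 + 1) = 15 / 8 * √Real.pi := by
          have e1 : ((5 : ℕ) : ℝ) / 2 + 1 = (1 / 2 + 1 + 1) + 1 := by norm_num
          rw [e1, Real.Gamma_add_one (by norm_num), Real.Gamma_add_one (by norm_num),
            Real.Gamma_add_one (by norm_num), Real.Gamma_one_half_eq]
          ring
        rw [h1, mul_pow, Real.sq_sqrt Real.pi_pos.le]
        have e2 : (Real.pi / 9 * ((5 : ℕ) : ℝ)) ^ 5 = Real.pi * (Real.pi ^ 4 * (5 / 9) ^ 5) := by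
          push_cast
          ring
        rw [e2]
        have h3 : (3.14 : ℝ) ^ 4 ≤ Real.pi ^ 4 := by gcongr
        have h4 : (15 / 8 : ℝ) ^ 2 ≤ Real.pi ^ 4 * (5 / 9) ^ 5 := by
          calc (15 / 8 : ℝ) ^ 2 ≤ 3.14 ^ 4 * (5 / 9) ^ 5 := by norm_num
            _ ≤ _ := by gcongr
        have hp := Real.pi_pos
        nlinarith
      · have h1 : Real.Gamma (((6 : ℕ) : ℝ) / 2 + 1) = 6 := by
          have e1 : ((6 : ℕ) : ℝ) / 2 + 1 = ((3 : ℕ) : ℝ) + 1 := by norm_num
          rw [e1, Real.Gamma_nat_eq_factorial]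
          norm_num [Nat.factorial]
        rw [h1]
        have h2 : (2.09 : ℝ) ≤ Real.pi / 9 * ((6 : ℕ) : ℝ) := by
          push_cast
          linarith
        calc (6 : ℝ) ^ 2 ≤ 2.09 ^ 6 := by norm_num
          _ ≤ _ := by gcongr
    · obtain ⟨k, rfl⟩ : ∃ k, n = k + 2 := ⟨n - 2, by omega⟩
      have hk := ih k (by omega) (by omega)
      have hk0 : (0 : ℝ) < k := by
        have : 0 < k := by omega
        exact_mod_cast this
      have e1 : (((k + 2 : ℕ) : ℝ)) / 2 + 1 = ((k : ℝ) / 2 + 1) + 1 := by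
        push_cast
        ring
      rw [e1, Real.Gamma_add_one (by positivity), mul_pow]
      have h1 : (3 : ℝ) ≤ (1 + 2 / k) ^ k := by
        have h2 := one_add_mul_le_pow (a := (2 : ℝ) / k) (by
          have : 0 < (2 : ℝ) / k := by positivity
          linarith) k
        have h3 : (k : ℝ) * (2 / k) = 2 := by field_simp
        linarith
      have h2 : (Real.pi / 9 * ((k + 2 : ℕ) : ℝ)) ^ (k + 2) =
          ((k : ℝ) / 2 + 1) ^ 2 * ((2 * Real.pi / 9) ^ 2 * ((Real.pi / 9 * k) ^ k * (1 + 2 / k) ^ k)) := by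
        rw [← mul_pow (Real.pi / 9 * k), pow_add]
        have e2 : Real.pi / 9 * k * (1 + 2 / k) = Real.pi / 9 * ((k + 2 : ℕ) : ℝ) := by
          push_cast
          field_simp
        rw [e2]
        push_cast
        ring
      rw [h2]
      refine mul_le_mul_of_nonneg_left ?_ (sq_nonneg _)
      have h3 : (0 : ℝ) ≤ (Real.pi / 9 * k) ^ k := by positivity
      have h4 : (0.48 : ℝ) ≤ (2 * Real.pi / 9) ^ 2 := by
        have : (0.697 : ℝ) ≤ 2 * Real.pi / 9 := by linarith
        calc (0.48 : ℝ) ≤ 0.697 ^ 2 := by norm_num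
          _ ≤ _ := by gcongr
      have h5 : (Real.pi / 9 * k) ^ k * 3 ≤ (Real.pi / 9 * k) ^ k * (1 + 2 / k) ^ k :=
        mul_le_mul_of_nonneg_left h1 h3
      nlinarith

theorem hermite_large (n : ℕ) (hn : 5 ≤ n) : 9 / 4 * hermite n ≤ n := by
  have h1 := hermite_ball (n := n) (by omega)
  have h2 := gamma_bound n hn
  have hpi := Real.pi_pos
  have h3 : hermite n ^ n ≤ (4 / 9 * (n : ℝ)) ^ n := by
    refine h1.trans ?_
    calc (4 / Real.pi) ^ n * Real.Gamma ((n : ℝ) / 2 + 1) ^ 2 ≤
          (4 / Real.pi) ^ n * (Real.pi / 9 * n) ^ n := mul_le_mul_of_nonneg_left h2 (by positivity)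
      _ = _ := by
        rw [← mul_pow]
        congr 1
        field_simp
  have h4 : hermite n ≤ 4 / 9 * (n : ℝ) := by
    by_contra hcon
    rw [not_le] at hcon
    have := pow_lt_pow_left₀ hcon (by positivity) (show n ≠ 0 by omega)
    linarith
  linarith

/-- Hermite's inequality -/
theorem step_aux {n : ℕ} (A : Matrix (Fin (n + 1)) (Fin (n + 1)) ℝ) (hA : A.det ≠ 0) :
    minSq A ^ (n + 1) ≤ (4 / 3) ^ n * hermite n ^ n * A.det ^ 2 := by
  have hM0 := minSq_nonneg A
  rcases hM0.eq_or_lt with hM | hM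
  · rw [← hM]
    have := pow_self_pos n
    rw [zero_pow (Nat.succ_ne_zero n)]
    positivity
  set M := minSq A with hMd
  have key : ∀ ε : ℝ, 0 < ε → ε < 1 → M * (M * ((3 - ε) / 4)) ^ n ≤ hermite n ^ n * A.det ^ 2 := by
    intro ε hε hε1
    have h1 : M < M * (1 + ε) := by nlinarith
    have hne : Nonempty {w : Fin (n + 1) → ℤ // w ≠ 0} :=
      ⟨⟨fun _ => 1, fun h => by have := congrFun h 0; simp at this⟩⟩
    obtain ⟨⟨w0, hw0⟩, hq⟩ := exists_lt_of_ciInf_lt h1
    simp only at hq
    set q := ∑ i, (A.mulVec (fun j => (w0 j : ℝ))) i ^ 2 with hqd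
    have hqM : M ≤ q := minSq_le A w0 hw0
    have hq0 : 0 < q := lt_of_lt_of_le hM hqM
    let B : Matrix (Fin (n + 1)) (Fin 1) ℤ := fun i _ => w0 i
    have hBv : ∀ (v : Fin 1 → ℤ), B.mulVec v = fun i => w0 i * v 0 := by
      intro v
      funext i
      simp [B, mulVec, dotProduct]
    have hB : Indep B := by
      intro v hv
      rw [hBv] at hv
      obtain ⟨i, hi⟩ : ∃ i, w0 i ≠ 0 := by
        by_contra hcon
        push Not at hcon
        exact hw0 (funext hcon)
      have h2 := congrFun hv i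
      simp only [Pi.zero_apply, mul_eq_zero] at h2
      funext j
      rw [Subsingleton.elim j 0]
      exact h2.resolve_left hi
    have hBr : ∀ (s : Fin 1 → ℝ), (B.map (fun z : ℤ => (z : ℝ))).mulVec s =
        fun i => (w0 i : ℝ) * s 0 := by
      intro s
      funext i
      simp only [mulVec, dotProduct, Fin.sum_univ_one, Matrix.map_apply, Fin.isValue]
      rfl
    have hμ0 : 0 ≤ M - q / 4 := by nlinarith
    obtain ⟨-, -, h3⟩ := exact_ineq hA (show 1 + n = n + 1 by omega) hB
    have h4 := h3 (M - q / 4) hμ0 (by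
      intro w s hws
      set a := A.mulVec (fun j => (w j : ℝ)) with ha
      set b := A.mulVec (fun j => (w0 j : ℝ)) with hb
      have hf : ∀ t : ℝ, ∑ i, (a i - t * b i) ^ 2 =
          ∑ i, a i ^ 2 - 2 * t * ∑ i, a i * b i + t ^ 2 * q := by
        intro t
        rw [hqd, Finset.mul_sum, Finset.mul_sum, ← Finset.sum_sub_distrib, ← Finset.sum_add_distrib]
        exact Finset.sum_congr rfl fun i _ => by ring
      have e1 : ∀ t : ℝ, A.mulVec ((fun j => (w j : ℝ)) - fun i => (w0 i : ℝ) * t) =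
          fun i => a i - t * b i := by
        intro t
        have : (fun i => (w0 i : ℝ) * t) = t • (fun j => (w0 j : ℝ)) := by
          funext i
          simp [mul_comm]
        rw [this, mulVec_sub, mulVec_smul]
        rfl
      rw [hBr, e1]
      set c := ∑ i, a i * b i with hc
      set k : ℤ := round (c / q) with hk
      have h5 : M ≤ ∑ i, (a i - (k : ℝ) * b i) ^ 2 := by
        have h6 := minSq_le A (fun j => w j - w0 j * k) (by
          intro h0
          apply hws (fun _ => (k : ℝ))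
          rw [hBr]
          funext j
          have := congrFun h0 j
          simp only [Pi.zero_apply, sub_eq_zero] at this
          have h7 : ((w j : ℤ) : ℝ) = ((w0 j * k : ℤ) : ℝ) := by rw [this]
          rw [h7]
          push_cast
          rfl)
        refine h6.trans (le_of_eq ?_)
        have h7 : (fun j => (((fun j => w j - w0 j * k) j : ℤ) : ℝ)) =
            (fun j => (w j : ℝ)) - fun i => (w0 i : ℝ) * (k : ℝ) := by
          funext j
          simp
        rw [h7, e1]
      have h8 : |c / q - k| ≤ 1 / 2 := abs_sub_round _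
      have h9 : (c / q - k) ^ 2 ≤ 1 / 4 := by
        have := sq_le_sq' (by linarith [(abs_le.1 h8).1]) (abs_le.1 h8).2
        linarith
      simp only
      rw [hf] at h5 ⊢
      have hc' : c = c / q * q := by field_simp
      set x := c / q with hx
      rw [hc'] at h5 ⊢
      nlinarith [mul_nonneg hq0.le (sq_nonneg (s 0 - x))])
    have h1' : hermite 1 ^ 1 ≤ 1 := by
      rw [pow_one]
      have := hermite_le (n := 1) one_pos
      simpa using this
    rw [pow_one, ← hMd] at h4
    have hpn := pow_self_pos n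
    calc M * (M * ((3 - ε) / 4)) ^ n ≤ M * (M - q / 4) ^ n := by
          refine mul_le_mul_of_nonneg_left (pow_le_pow_left₀ ?_ ?_ n) hM0
          · apply mul_nonneg hM0
            linarith
          · nlinarith
      _ ≤ hermite 1 ^ 1 * hermite n ^ n * A.det ^ 2 := h4
      _ ≤ 1 * hermite n ^ n * A.det ^ 2 := by
          refine mul_le_mul_of_nonneg_right (mul_le_mul_of_nonneg_right h1' hpn.le) (sq_nonneg _)
      _ = _ := by ring
  have h0 : M * (M * ((3 - 0) / 4)) ^ n ≤ hermite n ^ n * A.det ^ 2 := by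
    have hcont : Continuous fun ε : ℝ => M * (M * ((3 - ε) / 4)) ^ n := by fun_prop
    have ht : Filter.Tendsto (fun ε : ℝ => M * (M * ((3 - ε) / 4)) ^ n)
        (nhdsWithin 0 (Set.Ioi 0)) (nhds (M * (M * ((3 - 0) / 4)) ^ n)) :=
      (hcont.tendsto 0).mono_left nhdsWithin_le_nhds
    refine le_of_tendsto ht ?_
    filter_upwards [Ioo_mem_nhdsGT (show (0 : ℝ) < 1 by norm_num)] with ε hε
    exact key ε hε.1 hε.2
  calc M ^ (n + 1) = (4 / 3) ^ n * (M * (M * ((3 - 0) / 4)) ^ n) := by
        have e : M * ((3 - 0) / 4) = (3 / 4) * M := by ring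
        rw [e, mul_pow, pow_succ]
        have e2 : (4 / 3 : ℝ) ^ n * (3 / 4) ^ n = 1 := by
          rw [← mul_pow]
          norm_num
        calc M ^ n * M = 1 * (M ^ n * M) := by ring
          _ = ((4 / 3 : ℝ) ^ n * (3 / 4) ^ n) * (M ^ n * M) := by rw [e2]
          _ = _ := by ring
    _ ≤ (4 / 3) ^ n * (hermite n ^ n * A.det ^ 2) :=
        mul_le_mul_of_nonneg_left h0 (by positivity)
    _ = _ := by ring

theorem hermite_step (n : ℕ) : hermite (n + 1) ^ (n + 1) ≤ (4 / 3) ^ n * hermite n ^ n :=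
  sup_pow (Nat.succ_pos n) (by have := pow_self_pos n; positivity) fun A hA => step_aux A hA

theorem hermite_two : hermite 2 ^ 2 ≤ 4 / 3 := by
  have h := hermite_step 1
  have h1 : hermite 1 ≤ 1 := by simpa using hermite_le (n := 1) one_pos
  norm_num at h
  linarith

theorem hermite_three : hermite 3 ^ 3 ≤ 64 / 27 := by
  have h := hermite_step 2
  have h1 := hermite_two
  norm_num at h
  linarith

theorem hermite_four : hermite 4 ^ 4 ≤ 4096 / 729 := by
  have h := hermite_step 3
  have h1 := hermite_three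
  norm_num at h
  linarith

theorem nine_quarters (n : ℕ) (hn : 3 ≤ n) : 9 / 4 * hermite n ≤ n := by
  rcases Nat.lt_or_ge n 5 with h | h
  · have h34 : n = 3 ∨ n = 4 := by omega
    rcases h34 with rfl | rfl
    · have h1 := hermite_three
      have h2 : hermite 3 ≤ 4 / 3 := by
        by_contra hcon
        rw [not_le] at hcon
        have := pow_lt_pow_left₀ hcon (by norm_num) (show (3 : ℕ) ≠ 0 by norm_num)
        norm_num at this
        linarith
      push_cast
      linarith
    · have h1 := hermite_four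
      have h2 : hermite 4 ≤ 16 / 9 := by
        by_contra hcon
        rw [not_le] at hcon
        have := pow_lt_pow_left₀ hcon (by norm_num) (show (4 : ℕ) ≠ 0 by norm_num)
        norm_num at this
        linarith
      push_cast
      linarith
  · exact hermite_large n h

theorem sqrt_three (n : ℕ) (hn : 2 ≤ n) : √3 * hermite n ≤ n := by
  have hpos := hermite_pos (n := n) (by omega)
  have hs3 : √(3 : ℝ) ^ 2 = 3 := Real.sq_sqrt (by norm_num)
  have hs0 : 0 < √(3 : ℝ) := Real.sqrt_pos.2 (by norm_num)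
  rcases Nat.lt_or_ge n 3 with h | h
  · have h2 : n = 2 := by omega
    subst h2
    have h1 := hermite_two
    have h3 : (√3 * hermite 2) ^ 2 ≤ 2 ^ 2 := by
      rw [mul_pow, hs3]
      linarith
    have h4 := abs_le_of_sq_le_sq' h3 (by norm_num)
    push_cast
    exact h4.2
  · have h1 := nine_quarters n h
    have h2 : √(3 : ℝ) ≤ 9 / 4 := by
      rw [Real.sqrt_le_left (by norm_num)]
      norm_num
    nlinarith

end Pool.Agent.J4.H50.Herm
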