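import Pool.Agent.J4.H50.Herm.Stab
import Pool.Agent.W259.GP.Main
import Pool.Agent.W259.GP.Fin

/-!
# Dense lattices and near-optimal lattices
-/

set_option autoImplicit false

namespace Pool.Agent.J4.H50.Herm

open Matrix Module Filter Topology
open Pool.Agent.H160R3.Herm Pool.Agent.R834.HA

theorem upper_le : upper ≤ 1 / Real.pi ^ 2 :=
  Pool.Agent.W259.GP.limsup_hermite Pool.Agent.W259.GP.s_main

theorem e_lt_pi : Real.exp 1 < Real.pi := by
  have h1 := Real.exp_one_lt_d9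
  have h2 := Real.pi_gt_three
  linarith

theorem log_upper_le : Real.log (upper / (1 / (2 * Real.pi * Real.exp 1))) ≤
    Real.log (2 * Real.exp 1 / Real.pi) := by
  have h1 := upper_pos
  have h2 := upper_le
  have hpi := Real.pi_pos
  have he := Real.exp_pos 1
  apply Real.log_le_log (by positivity)
  calc upper / (1 / (2 * Real.pi * Real.exp 1)) = upper * (2 * Real.pi * Real.exp 1) := by
        field_simp
    _ ≤ 1 / Real.pi ^ 2 * (2 * Real.pi * Real.exp 1) := mul_le_mul_of_nonneg_right h2 (by positivity)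
    _ = 2 * Real.exp 1 / Real.pi := by field_simp

/-- for every subspace spanned by lattice vectors there is a lattice vector outside of the subspace
and near to it -/
def NearVectors {n : ℕ} (A : Matrix (Fin n) (Fin n) ℝ) (L : ℝ) : Prop :=
  ∀ a b : ℕ, a + b = n → 0 < b → ∀ B : Matrix (Fin n) (Fin a) ℤ, Indep B →
    ∃ (w : Fin n → ℤ) (s : Fin a → ℝ),
      (∀ s', (fun j => (w j : ℝ)) ≠ (B.map (fun z : ℤ => (z : ℝ))).mulVec s') ∧
      ∑ i, (A.mulVec ((fun j => (w j : ℝ)) - (B.map (fun z : ℤ => (z : ℝ))).mulVec s)) i ^ 2 ≤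
        Real.exp ((L - Real.binEntropy ((b : ℝ) / n)) * (n / b)) * minSq A

theorem NearVectors.mono {n : ℕ} {A : Matrix (Fin n) (Fin n) ℝ} {L L' : ℝ} (h : NearVectors A L)
    (hL : L ≤ L') : NearVectors A L' := by
  intro a b hab hb B hB
  obtain ⟨w, s, h1, h2⟩ := h a b hab hb B hB
  refine ⟨w, s, h1, h2.trans ?_⟩
  refine mul_le_mul_of_nonneg_right ?_ (minSq_nonneg A)
  rw [Real.exp_le_exp]
  have : (0 : ℝ) ≤ n / b := by positivity
  nlinarith

theorem nearVectors {ε t : ℝ} (hε : 0 < ε) (ht : 0 < t) :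
    ∃ n0 : ℕ, ∀ n ≥ n0, ∀ A : Matrix (Fin n) (Fin n) ℝ, A.det ≠ 0 → t * n ≤ inv A →
      NearVectors A (Real.log (upper / t) + ε) := quotient hε ht

/-- the determinants of the sublattices -/
def AlmostStable {n : ℕ} (A : Matrix (Fin n) (Fin n) ℝ) (c : ℝ) (m0 : ℕ) : Prop :=
  ∀ m : ℕ, 0 < m → ∀ B : Matrix (Fin n) (Fin m) ℤ, Indep B →
    (m0 ≤ m → (c * n / m) ^ m * |A.det| ^ (2 * m / n : ℝ) ≤ (gramOf A B).det) ∧
    ((m : ℝ) ≤ c * n → |A.det| ^ (2 * m / n : ℝ) ≤ (gramOf A B).det)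

/-- stable lattices -/
def Stable {n : ℕ} (A : Matrix (Fin n) (Fin n) ℝ) : Prop :=
  ∀ (m : ℕ) (B : Matrix (Fin n) (Fin m) ℤ), Indep B →
    |A.det| ^ (2 * m / n : ℝ) ≤ (gramOf A B).det

theorem dense_stab {c : ℝ} (hc : 0 ≤ c) (hc' : c < Real.pi / (2 * Real.exp 1)) :
    ∃ m0 n0 : ℕ, ∀ n ≥ n0, ∀ A : Matrix (Fin n) (Fin n) ℝ, A.det ≠ 0 →
      n / (2 * Real.pi * Real.exp 1) ≤ inv A → AlmostStable A c m0 := by
  have hpi := Real.pi_pos
  have he := Real.exp_pos 1
  have h1 : c * upper < 1 / (2 * Real.pi * Real.exp 1) := by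
    have h2 : c * upper ≤ c * (1 / Real.pi ^ 2) := mul_le_mul_of_nonneg_left upper_le hc
    have h3 : c * (1 / Real.pi ^ 2) < Real.pi / (2 * Real.exp 1) * (1 / Real.pi ^ 2) :=
      mul_lt_mul_of_pos_right hc' (by positivity)
    have h4 : Real.pi / (2 * Real.exp 1) * (1 / Real.pi ^ 2) = 1 / (2 * Real.pi * Real.exp 1) := by
      field_simp
    linarith
  obtain ⟨m0, n0, h⟩ := stab (by positivity) hc h1
  refine ⟨m0, n0, fun n hn A hA hAt => h n hn A hA ?_⟩
  rw [one_div_mul_eq_div]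
  exact hAt

theorem dense_stable : ∃ n0 : ℕ, ∀ n ≥ n0, ∀ A : Matrix (Fin n) (Fin n) ℝ, A.det ≠ 0 →
    n / (2 * Real.pi * Real.exp 1) ≤ inv A → n / (2 * Real.pi * Real.exp 1) ≤ inv (A⁻¹)ᵀ →
      Stable A := by
  have hpi := Real.pi_pos
  have he := Real.exp_pos 1
  have h1 : upper < 1 / (2 * Real.pi * Real.exp 1) + 1 / (2 * Real.pi * Real.exp 1) := by
    have h2 : 1 / (2 * Real.pi * Real.exp 1) + 1 / (2 * Real.pi * Real.exp 1) =
        1 / (Real.pi * Real.exp 1) := by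
      field_simp
      norm_num
    rw [h2]
    refine lt_of_le_of_lt upper_le ?_
    apply one_div_lt_one_div_of_lt (by positivity)
    rw [sq]
    exact mul_lt_mul_of_pos_left e_lt_pi hpi
  obtain ⟨n0, h⟩ := stable (by positivity) (by positivity) h1
  refine ⟨n0, fun n hn A hA hAt hAt' m B hB => h n hn A hA ?_ ?_ m B hB⟩
  · rw [one_div_mul_eq_div]
    exact hAt
  · rw [one_div_mul_eq_div]
    exact hAt'

theorem dense_near {ε : ℝ} (hε : 0 < ε) : ∃ n0 : ℕ, ∀ n ≥ n0, ∀ A : Matrix (Fin n) (Fin n) ℝ,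
    A.det ≠ 0 → n / (2 * Real.pi * Real.exp 1) ≤ inv A →
      NearVectors A (Real.log (2 * Real.exp 1 / Real.pi) + ε) := by
  have hpi := Real.pi_pos
  have he := Real.exp_pos 1
  obtain ⟨n0, h⟩ := nearVectors (t := 1 / (2 * Real.pi * Real.exp 1)) hε (by positivity)
  refine ⟨n0, fun n hn A hA hAt => (h n hn A hA ?_).mono ?_⟩
  · rw [one_div_mul_eq_div]
    exact hAt
  · linarith [log_upper_le]

theorem dense_half : ∃ n0 : ℕ, ∀ n ≥ n0, ∀ A : Matrix (Fin n) (Fin n) ℝ,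
    A.det ≠ 0 → n / (2 * Real.pi * Real.exp 1) ≤ inv A →
      ∀ a : ℕ, 2 * a = n → ∀ B : Matrix (Fin n) (Fin a) ℤ, Indep B →
        ∃ (w : Fin n → ℤ) (s : Fin a → ℝ),
          (∀ s', (fun j => (w j : ℝ)) ≠ (B.map (fun z : ℤ => (z : ℝ))).mulVec s') ∧
          ∑ i, (A.mulVec ((fun j => (w j : ℝ)) - (B.map (fun z : ℤ => (z : ℝ))).mulVec s)) i ^ 2 ≤
            3 / 4 * minSq A := by
  have hpi := Real.pi_pos
  have he := Real.exp_pos 1
  -- the numerical inequality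
  have hnum : 2 * Real.log (Real.exp 1 / Real.pi) < Real.log (3 / 4) := by
    have h1 : 2 * Real.log (Real.exp 1 / Real.pi) = Real.log ((Real.exp 1 / Real.pi) ^ 2) := by
      rw [Real.log_pow]
      norm_num
    rw [h1]
    apply Real.log_lt_log (by positivity)
    rw [div_pow, div_lt_div_iff₀ (by positivity) (by norm_num)]
    have h2 := Real.exp_one_lt_d9
    have h3 := Real.pi_gt_d6
    have h4 : Real.exp 1 ^ 2 < 2.7182818286 ^ 2 := by
      apply pow_lt_pow_left₀ h2 he.le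
      norm_num
    have h5 : (3.141592 : ℝ) ^ 2 < Real.pi ^ 2 := by
      apply pow_lt_pow_left₀ h3 (by norm_num)
      norm_num
    have h6 : (2.7182818286 : ℝ) ^ 2 < 7.3890562 := by norm_num
    have h7 : (9.8696 : ℝ) < 3.141592 ^ 2 := by norm_num
    linarith
  set ε := (Real.log (3 / 4) - 2 * Real.log (Real.exp 1 / Real.pi)) / 2 with hε
  have hε0 : 0 < ε := by
    rw [hε]
    linarith
  obtain ⟨n0, h⟩ := dense_near hε0
  refine ⟨n0 + 1, fun n hn A hA hAt a ha B hB => ?_⟩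
  have ha0 : 0 < a := by omega
  obtain ⟨w, s, h1, h2⟩ := h n (by omega) A hA hAt a a (by omega) ha0 B hB
  refine ⟨w, s, h1, h2.trans (mul_le_mul_of_nonneg_right ?_ (minSq_nonneg A))⟩
  have ha' : (0 : ℝ) < a := by exact_mod_cast ha0
  have hna : (n : ℝ) = 2 * a := by rw [← ha]; push_cast; ring
  have e1 : (a : ℝ) / n = 2⁻¹ := by
    rw [hna]
    field_simp
  have e2 : (n : ℝ) / a = 2 := by
    rw [hna]
    field_simp
  rw [e1, e2, Real.binEntropy_two_inv]
  have e3 : Real.log (2 * Real.exp 1 / Real.pi) = Real.log 2 + Real.log (Real.exp 1 / Real.pi) := by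
    rw [mul_div_assoc, Real.log_mul (by norm_num) (by positivity)]
  have e4 : (Real.log (2 * Real.exp 1 / Real.pi) + ε - Real.log 2) * 2 = Real.log (3 / 4) := by
    rw [e3, hε]
    ring
  rw [e4, Real.exp_log (by norm_num)]

/-- the exact inequalities -/
theorem exact_ineq {n : ℕ} {A : Matrix (Fin n) (Fin n) ℝ} (hA : A.det ≠ 0) {a b : ℕ}
    (hab : a + b = n) {B : Matrix (Fin n) (Fin a) ℤ} (hB : Indep B) :
    minSq A ^ a ≤ hermite a ^ a * (gramOf A B).det ∧
    minSq (A⁻¹)ᵀ ^ b * A.det ^ 2 ≤ hermite b ^ b * (gramOf A B).det ∧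
    ∀ μ : ℝ, 0 ≤ μ → (∀ (w : Fin n → ℤ) (s : Fin a → ℝ),
      (∀ s', (fun j => (w j : ℝ)) ≠ (B.map (fun z : ℤ => (z : ℝ))).mulVec s') →
        μ ≤ ∑ i, (A.mulVec ((fun j => (w j : ℝ)) -
          (B.map (fun z : ℤ => (z : ℝ))).mulVec s)) i ^ 2) →
      minSq A ^ a * μ ^ b ≤ hermite a ^ a * hermite b ^ b * A.det ^ 2 := by
  obtain ⟨b', g, s, hab', hg, hs, hgs, hgB, h1, h2, h3⟩ := split_all A hA B hB
  have hbb : b' = b := by omega
  subst hbb
  have hpa := pow_self_pos a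
  have hpb := pow_self_pos b'
  refine ⟨h1.trans (mul_le_mul_of_nonneg_left hgB hpa.le), ?_, ?_⟩
  · calc minSq (A⁻¹)ᵀ ^ b' * A.det ^ 2 ≤ hermite b' ^ b' * s⁻¹ * A.det ^ 2 :=
          mul_le_mul_of_nonneg_right h3 (sq_nonneg _)
      _ = hermite b' ^ b' * g := by
          rw [hgs]
          field_simp
      _ ≤ _ := mul_le_mul_of_nonneg_left hgB hpb.le
  · intro μ hμ hq
    calc minSq A ^ a * μ ^ b' ≤ (hermite a ^ a * g) * (hermite b' ^ b' * s) :=
          mul_le_mul h1 (h2 μ hμ hq) (pow_nonneg hμ _) (by positivity)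
      _ = _ := by rw [hgs]; ring

/-- near-optimal lattices, if the limit exists -/
theorem limit_all {l : ℝ} (hl : Tendsto (fun n : ℕ => hermite n / n) atTop (𝓝 l)) {δ : ℝ}
    (hδ : 0 < δ) (hδ1 : δ < 1) :
    ∃ (η : ℝ) (m0 n0 : ℕ), 0 < η ∧ ∀ n ≥ n0, ∀ A : Matrix (Fin n) (Fin n) ℝ, A.det ≠ 0 →
      (1 - η) * hermite n ≤ inv A →
        AlmostStable A (1 - δ) m0 ∧ NearVectors A δ ∧ (δ * n ≤ inv (A⁻¹)ᵀ → Stable A) ∧
        ∀ (m : ℕ) (B : Matrix (Fin n) (Fin m) ℤ), 0 < m → Indep B →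
          (1 - δ) ^ m * |A.det| ^ (2 * m / n : ℝ) ≤ (gramOf A B).det := by
  have hu : upper = l := hl.limsup_eq
  have hup := upper_pos
  rw [hu] at hup
  have hl1 : l ≤ 1 := le_of_tendsto' hl ratio_le_one
  set η := δ / 4 with hη
  have hη0 : 0 < η := by positivity
  have hη4 : η < 1 / 4 := by
    rw [hη]
    linarith
  set t := (1 - η) * ((1 - η) * l) with ht
  have h1η : 0 < 1 - η := by linarith
  have ht0 : 0 < t := by positivity
  have ht1 : (1 - δ / 2) * l < t := by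
    have : (1 - δ / 2) < (1 - η) * (1 - η) := by
      rw [hη]
      nlinarith
    nlinarith
  have hst : (1 - δ) * upper < t := by
    rw [hu]
    nlinarith
  obtain ⟨m0, n1, h1⟩ := stab ht0 (by linarith : (0 : ℝ) ≤ 1 - δ) hst
  obtain ⟨n2, h2⟩ := nearVectors (t := t) (show 0 < δ / 3 by positivity) ht0
  obtain ⟨n3, h3⟩ := stable (t := t) (t' := δ) ht0 hδ (by rw [hu]; nlinarith)
  have hev : ∀ᶠ n : ℕ in atTop, (1 - η) * l ≤ hermite n / n := by
    have : (1 - η) * l < l := by nlinarith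
    exact (hl.eventually (lt_mem_nhds this)).mono fun n hn => hn.le
  obtain ⟨n4, hn4⟩ := eventually_atTop.1 hev
  obtain ⟨n5, hn5⟩ := exists_nat_gt ((m0 : ℝ) / (1 - δ))
  have hlog : Real.log (upper / t) + δ / 3 ≤ δ := by
    rw [hu]
    have e : l / t = ((1 - η)⁻¹) ^ 2 := by
      rw [ht]
      field_simp
    rw [e, Real.log_pow]
    have h4 := Real.log_le_sub_one_of_pos (inv_pos.2 h1η)
    have h5 : (1 - η)⁻¹ - 1 ≤ 4 / 3 * η := by
      have : (1 - η)⁻¹ ≤ 1 + 4 / 3 * η := by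
        rw [inv_le_iff_one_le_mul₀ h1η]
        nlinarith
      linarith
    push_cast
    have : η = δ / 4 := hη
    linarith
  refine ⟨η, m0, n1 + n2 + n3 + n4 + n5 + 1, hη0, fun n hn A hA hAη => ?_⟩
  have hn' : (0 : ℝ) < n := by
    have : 0 < n := by omega
    exact_mod_cast this
  have hAt : t * n ≤ inv A := by
    refine le_trans ?_ hAη
    have h5 := hn4 n (by omega)
    rw [le_div_iff₀ hn'] at h5
    calc t * n = (1 - η) * ((1 - η) * l * n) := by rw [ht]; ring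
      _ ≤ _ := mul_le_mul_of_nonneg_left h5 h1η.le
  have hAS : AlmostStable A (1 - δ) m0 := h1 n (by omega) A hA hAt
  refine ⟨hAS, (h2 n (by omega) A hA hAt).mono hlog,
    fun hd m B hB => h3 n (by omega) A hA hAt hd m B hB, ?_⟩
  intro m B hm hB
  obtain ⟨h5, h6⟩ := hAS m hm B hB
  have hm' : (0 : ℝ) < m := by exact_mod_cast hm
  have hD : 0 ≤ |A.det| ^ (2 * m / n : ℝ) := Real.rpow_nonneg (abs_nonneg _) _
  rcases le_or_gt m0 m with h | h
  · refine le_trans (mul_le_mul_of_nonneg_right ?_ hD) (h5 h)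
    apply pow_le_pow_left₀ (by linarith)
    rw [le_div_iff₀ hm']
    have hmn : (m : ℝ) ≤ n := by
      have := (dual_bound (by omega : 0 < n) hA hB (x := 0) le_rfl
        (Or.inr (by rw [zero_mul]; exact inv_nonneg _))).1
      exact_mod_cast this
    nlinarith
  · have h7 : (m : ℝ) ≤ (1 - δ) * n := by
      rw [div_lt_iff₀ (by linarith)] at hn5
      have h8 : (m : ℝ) ≤ m0 := by exact_mod_cast h.le
      have h9 : (n5 : ℝ) ≤ n := by
        have : n5 ≤ n := by omega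
        exact_mod_cast this
      nlinarith
    refine le_trans ?_ (h6 h7)
    have h10 : (1 - δ) ^ m ≤ 1 := pow_le_one₀ (by linarith) (by linarith)
    nlinarith

end Pool.Agent.J4.H50.Herm
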