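import Pool.Agent.J4.H50.Herm.Sub

/-!
# The basic inequalities for a sublattice, its quotient and the dual of the quotient
-/

set_option autoImplicit false

namespace Pool.Agent.J4.H50.Herm

open Matrix Module
open Pool.Agent.H160R3.Herm Pool.Agent.R834.HA

theorem sum_elim_eq {a b : ℕ} (x : Fin a ⊕ Fin b → ℝ) :
    x = Sum.elim (fun i => x (Sum.inl i)) (fun i => x (Sum.inr i)) := by
  funext i
  rcases i with i | i <;> rfl

theorem split_all {n a : ℕ} (A : Matrix (Fin n) (Fin n) ℝ) (hA : A.det ≠ 0)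
    (B : Matrix (Fin n) (Fin a) ℤ) (hB : ∀ w : Fin a → ℤ, B.mulVec w = 0 → w = 0) :
    ∃ (b : ℕ) (g s : ℝ), a + b = n ∧ 0 < g ∧ 0 < s ∧ A.det ^ 2 = g * s ∧
      g ≤ (gramOf A B).det ∧ minSq A ^ a ≤ hermite a ^ a * g ∧
      (∀ μ : ℝ, 0 ≤ μ → (∀ (w : Fin n → ℤ) (t : Fin a → ℝ),
        (∀ t', (fun j => (w j : ℝ)) ≠ (re B).mulVec t') →
          μ ≤ ∑ i, (A.mulVec ((fun j => (w j : ℝ)) - (re B).mulVec t)) i ^ 2) →
        μ ^ b ≤ hermite b ^ b * s) ∧
      minSq (A⁻¹)ᵀ ^ b ≤ hermite b ^ b * s⁻¹ := by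
  classical
  obtain ⟨b, R, R', K, hab, hRR', hR'R, hK, hBK⟩ := adapted B hB
  have hAu : IsUnit A.det := isUnit_iff_ne_zero.2 hA
  -- the basis
  set C : Matrix (Fin n) (Fin a ⊕ Fin b) ℝ := A * re R with hC
  set C' : Matrix (Fin n) (Fin a ⊕ Fin b) ℝ := (A⁻¹)ᵀ * (re R')ᵀ with hC'
  have hRr : re R' * re R = 1 := by rw [← re_mul, hR'R, re_one]
  have hRr' : re R * re R' = 1 := by rw [← re_mul, hRR', re_one]
  have hAinj : ∀ x, A.mulVec x = 0 → x = 0 := fun x hx => Matrix.eq_zero_of_mulVec_eq_zero hA hx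
  have hRinj : ∀ x, (re R).mulVec x = 0 → x = 0 := by
    intro x hx
    have h1 : (re R').mulVec ((re R).mulVec x) = x := by rw [mulVec_mulVec, hRr, one_mulVec]
    rw [hx, mulVec_zero] at h1
    exact h1.symm
  have hCinj : ∀ x, C.mulVec x = 0 → x = 0 := by
    intro x hx
    rw [hC, ← mulVec_mulVec] at hx
    exact hRinj _ (hAinj _ hx)
  have hC'C : C'ᵀ * C = 1 := by
    rw [hC', hC, transpose_mul, transpose_transpose, transpose_transpose, Matrix.mul_assoc,
      ← Matrix.mul_assoc A⁻¹, nonsing_inv_mul _ hAu, Matrix.one_mul, hRr]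
  have hCC' : C * C'ᵀ = 1 := by
    rw [hC', hC, transpose_mul, transpose_transpose, transpose_transpose, Matrix.mul_assoc,
      ← Matrix.mul_assoc (re R), hRr', Matrix.one_mul, mul_nonsing_inv _ hAu]
  have hC'inj : ∀ x, C'.mulVec x = 0 → x = 0 := by
    intro x hx
    have h1 : Cᵀ * C' = 1 := by
      have := congrArg transpose hC'C
      rwa [transpose_mul, transpose_transpose, transpose_one] at this
    have h2 : Cᵀ.mulVec (C'.mulVec x) = x := by rw [mulVec_mulVec, h1, one_mulVec]
    rw [hx, mulVec_zero] at h2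
    exact h2.symm
  -- the Gram matrix and its blocks
  set G := Cᵀ * C with hG
  have hGpos : G.PosDef := posDef_gram C hCinj
  set C1 : Matrix (Fin n) (Fin a) ℝ := C.submatrix id Sum.inl with hC1
  set C2 : Matrix (Fin n) (Fin b) ℝ := C.submatrix id Sum.inr with hC2
  set G11 := C1ᵀ * C1 with hG11
  set G12 := C1ᵀ * C2 with hG12
  set G21 := C2ᵀ * C1 with hG21
  set G22 := C2ᵀ * C2 with hG22
  have hblocks : G = fromBlocks G11 G12 G21 G22 := by
    ext i j
    rcases i with i | i <;> rcases j with j | j <;> rfl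
  have hC1v : ∀ x, C1.mulVec x = C.mulVec (Sum.elim x (0 : Fin b → ℝ)) := by
    intro x
    funext i
    simp [mulVec, dotProduct, hC1, Fintype.sum_sum_type]
  have hC2v : ∀ x, C2.mulVec x = C.mulVec (Sum.elim (0 : Fin a → ℝ) x) := by
    intro x
    funext i
    simp [mulVec, dotProduct, hC2, Fintype.sum_sum_type]
  have hC1inj : ∀ x, C1.mulVec x = 0 → x = 0 := by
    intro x hx
    rw [hC1v] at hx
    have h1 := hCinj _ hx
    funext i
    exact congrFun h1 (Sum.inl i)
  have hG11pos : G11.PosDef := posDef_gram C1 hC1inj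
  have hg : 0 < G11.det := hG11pos.det_pos
  have hg' : IsUnit G11.det := isUnit_iff_ne_zero.2 hg.ne'
  set T1 : Matrix (Fin a) (Fin b) ℝ := -(G11⁻¹ * G12) with hT1
  set S := G22 - G21 * G11⁻¹ * G12 with hS
  set E := C1 * T1 + C2 with hE
  have hC1E : C1ᵀ * E = 0 := by
    rw [hE, Matrix.mul_add, ← Matrix.mul_assoc, ← hG11, hT1, Matrix.mul_neg, ← Matrix.mul_assoc,
      mul_nonsing_inv _ hg', Matrix.one_mul]
    simp [hG12]
  have hC2E : C2ᵀ * E = S := by
    rw [hE, Matrix.mul_add, ← Matrix.mul_assoc, ← hG21, hT1, Matrix.mul_neg, ← Matrix.mul_assoc, hS,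
      hG22]
    abel
  have hSE : S = Eᵀ * E := by
    have h1 : Eᵀ = T1ᵀ * C1ᵀ + C2ᵀ := by rw [hE, transpose_add, transpose_mul]
    rw [h1, Matrix.add_mul, Matrix.mul_assoc, hC1E, Matrix.mul_zero, zero_add, hC2E]
  have hEv : ∀ x, E.mulVec x = C.mulVec (Sum.elim (T1.mulVec x) x) := by
    intro x
    rw [hE, add_mulVec, ← mulVec_mulVec, hC1v, hC2v, ← mulVec_add]
    congr 1
    funext i
    rcases i with i | i <;> simp
  have hEinj : ∀ x, E.mulVec x = 0 → x = 0 := by
    intro x hx
    rw [hEv] at hx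
    have h1 := hCinj _ hx
    funext i
    exact congrFun h1 (Sum.inr i)
  have hSpos : S.PosDef := by
    rw [hSE]
    exact posDef_gram E hEinj
  have hs : 0 < S.det := hSpos.det_pos
  have hs' : IsUnit S.det := isUnit_iff_ne_zero.2 hs.ne'
  have hGdet : G.det = G11.det * S.det := by
    have : Invertible G11 := invertibleOfIsUnitDet _ hg'
    rw [hblocks, det_fromBlocks₁₁, invOf_eq_nonsing_inv]
  have hGA : A.det ^ 2 = G.det := by
    let e : Fin n ≃ Fin a ⊕ Fin b := (Fintype.equivFinOfCardEq (by simp [hab])).symm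
    have h1 : (G.submatrix e e).det = G.det := det_submatrix_equiv_self e G
    have h2 : G.submatrix e e = (C.submatrix id e)ᵀ * C.submatrix id e := by
      ext i j
      rfl
    have h3 : C.submatrix id e = A * (re R).submatrix id e := by
      ext i j
      rfl
    have h4 : (re R).submatrix id e * (re R').submatrix e id = 1 := by
      rw [Matrix.submatrix_mul_equiv, hRr']
      simp
    have h5 : (re R).submatrix id e = re (R.submatrix id e) := rfl
    have h6 : (re R').submatrix e id = re (R'.submatrix e id) := rfl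
    have h7 : ((re R).submatrix id e).det ^ 2 = 1 := by
      have h8 := congrArg Matrix.det h4
      rw [det_mul, det_one, h5, h6, re_det, re_det] at h8
      rw [h5, re_det]
      have h9 : (R.submatrix id e).det * (R'.submatrix e id).det = 1 := by exact_mod_cast h8
      have h10 : IsUnit (R.submatrix id e).det := IsUnit.of_mul_eq_one _ h9
      have h11 : (R.submatrix id e).det ^ 2 = 1 := by
        rcases Int.isUnit_iff.1 h10 with h | h <;> rw [h] <;> norm_num
      exact_mod_cast h11
    rw [← h1, h2, det_mul, det_transpose, h3, det_mul]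
    have : A.det * ((re R).submatrix id e).det * (A.det * ((re R).submatrix id e).det) =
        A.det ^ 2 * ((re R).submatrix id e).det ^ 2 := by ring
    rw [this, h7, mul_one]
  have hK1 : (1 : ℝ) ≤ (re K).det ^ 2 := by
    rw [re_det]
    have h1 : (1 : ℤ) ≤ K.det ^ 2 := by
      have : 0 < K.det ^ 2 := by positivity
      omega
    exact_mod_cast h1
  have hreB : re B = (re R).submatrix id Sum.inl * re K := by
    rw [hBK, re_mul]
    rfl
  have hABK : A * B.map (fun z : ℤ => (z : ℝ)) = C1 * re K := by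
    have h1 : B.map (fun z : ℤ => (z : ℝ)) = re B := rfl
    rw [h1, hreB, ← Matrix.mul_assoc]
    congr 1
  have hgB : (gramOf A B).det = (re K).det ^ 2 * G11.det := by
    unfold gramOf
    rw [hABK, transpose_mul, Matrix.mul_assoc, ← Matrix.mul_assoc C1ᵀ, ← hG11, det_mul, det_mul,
      det_transpose]
    ring
  refine ⟨b, G11.det, S.det, hab, hg, hs, by rw [hGA, hGdet], ?_, ?_, ?_, ?_⟩
  · rw [hgB]
    nlinarith
  · have h1 := gram G11 hG11pos (minSq A) (minSq_nonneg A) (by
      intro w hw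
      rw [← sum_sq, hC1v]
      have h2 : (Sum.elim (fun j => ((w j : ℤ) : ℝ)) (0 : Fin b → ℝ) : Fin a ⊕ Fin b → ℝ) =
          fun j => (((Sum.elim w (0 : Fin b → ℤ) : Fin a ⊕ Fin b → ℤ) j : ℤ) : ℝ) := by
        funext j
        rcases j with j | j <;> simp
      rw [h2, hC, ← mulVec_mulVec, ← re_mulVec]
      refine minSq_le A _ ?_
      intro h0
      have h3 : R'.mulVec (R.mulVec (Sum.elim w (0 : Fin b → ℤ))) = Sum.elim w (0 : Fin b → ℤ) := by
        rw [mulVec_mulVec, hR'R, one_mulVec]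
      rw [h0, mulVec_zero] at h3
      apply hw
      funext i
      exact (congrFun h3 (Sum.inl i)).symm)
    rwa [Fintype.card_fin] at h1
  · intro μ hμ hq
    have h1 := gram S hSpos μ hμ (by
      intro w hw
      rw [hSE, ← sum_sq, hEv]
      set u := T1.mulVec (fun j => ((w j : ℤ) : ℝ)) with hu
      set w' : Fin n → ℤ := R.mulVec (Sum.elim (0 : Fin a → ℤ) w) with hw'
      have h2 : (Sum.elim u (fun j => ((w j : ℤ) : ℝ)) : Fin a ⊕ Fin b → ℝ) =
          (fun j => (((Sum.elim (0 : Fin a → ℤ) w : Fin a ⊕ Fin b → ℤ) j : ℤ) : ℝ)) +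
            Sum.elim u (0 : Fin b → ℝ) := by
        funext j
        rcases j with j | j <;> simp
      have hKu : IsUnit (re K).det := by
        rw [isUnit_iff_ne_zero]
        intro h0
        rw [h0] at hK1
        norm_num at hK1
      have hBt : ∀ t, (re B).mulVec t = (re R).mulVec (Sum.elim ((re K).mulVec t) (0 : Fin b → ℝ)) := by
        intro t
        rw [hreB, ← mulVec_mulVec]
        funext i
        simp [mulVec, dotProduct, Fintype.sum_sum_type]
      set t : Fin a → ℝ := -((re K)⁻¹.mulVec u) with ht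
      have h3 : (re K).mulVec t = -u := by
        rw [ht, mulVec_neg, mulVec_mulVec, mul_nonsing_inv _ hKu, one_mulVec]
      have h4 : C.mulVec (Sum.elim u (fun j => ((w j : ℤ) : ℝ))) =
          A.mulVec ((fun j => (w' j : ℝ)) - (re B).mulVec t) := by
        rw [h2, mulVec_add, hBt, h3, hC, ← mulVec_mulVec, ← mulVec_mulVec, ← re_mulVec, ← mulVec_add]
        congr 1
        have h5 : (Sum.elim (-u) (0 : Fin b → ℝ) : Fin a ⊕ Fin b → ℝ) =
            -(Sum.elim u (0 : Fin b → ℝ)) := by
          funext j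
          rcases j with j | j <;> simp
        rw [h5, mulVec_neg, sub_neg_eq_add]
      rw [h4]
      refine hq w' t fun t' h0 => hw ?_
      rw [hBt, hw', re_mulVec] at h0
      have h5 : (re R).mulVec ((fun j => (((Sum.elim (0 : Fin a → ℤ) w :
          Fin a ⊕ Fin b → ℤ) j : ℤ) : ℝ)) - Sum.elim ((re K).mulVec t') (0 : Fin b → ℝ)) = 0 := by
        rw [mulVec_sub, h0, sub_self]
      have h6 := hRinj _ h5
      funext i
      have h7 := congrFun h6 (Sum.inr i)
      simpa using h7)
    rwa [Fintype.card_fin] at h1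
  · have hCinv : ∀ x, (C'ᵀ).mulVec (C.mulVec x) = x := by
      intro x
      rw [mulVec_mulVec, hC'C, one_mulVec]
    set F : Matrix (Fin n) (Fin b) ℝ := C'.submatrix id Sum.inr with hF
    -- F^T F S = 1
    set T2 : Matrix (Fin a ⊕ Fin b) (Fin b) ℝ :=
      fromRows T1 (1 : Matrix (Fin b) (Fin b) ℝ) with hT2
    have hEC : C'ᵀ * E = T2 := by
      have h1 : E = C * T2 := by
        ext i j
        rw [hE, Matrix.add_apply, mul_apply, mul_apply, Fintype.sum_sum_type]
        congr 1
        simp [hC2, hT2, Matrix.one_apply]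
      rw [h1, ← Matrix.mul_assoc, hC'C, Matrix.one_mul]
    have hCE : Cᵀ * E = fromRows (0 : Matrix (Fin a) (Fin b) ℝ) S := by
      ext i j
      rcases i with i | i
      · have h1 := congrFun (congrFun hC1E i) j
        have h2 : (Cᵀ * E) (Sum.inl i) j = (C1ᵀ * E) i j := rfl
        rw [h2, h1]
        rfl
      · have h1 := congrFun (congrFun hC2E i) j
        have h2 : (Cᵀ * E) (Sum.inr i) j = (C2ᵀ * E) i j := rfl
        rw [h2, h1]
        rfl
    have hC'Ct : C' * Cᵀ = 1 := by
      have := congrArg transpose hCC'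
      rwa [transpose_mul, transpose_transpose, transpose_one] at this
    have hFS : F * S = E := by
      have h1 : C' * (Cᵀ * E) = E := by rw [← Matrix.mul_assoc, hC'Ct, Matrix.one_mul]
      rw [hCE] at h1
      rw [← h1]
      ext i j
      simp [mul_apply, Fintype.sum_sum_type, hF]
    have hFFS : (Fᵀ * F) * S = 1 := by
      rw [Matrix.mul_assoc, hFS]
      ext i j
      have h1 := congrFun (congrFun hEC (Sum.inr i)) j
      have h2 : (C'ᵀ * E) (Sum.inr i) j = (Fᵀ * E) i j := rfl
      rw [← h2, h1]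
      rfl
    have hdetF : (Fᵀ * F).det = S.det⁻¹ := by
      have h1 := congrArg Matrix.det hFFS
      rw [det_mul, det_one] at h1
      exact eq_inv_of_mul_eq_one_left h1
    have hFv : ∀ x, F.mulVec x = C'.mulVec (Sum.elim (0 : Fin a → ℝ) x) := by
      intro x
      funext i
      simp [mulVec, dotProduct, hF, Fintype.sum_sum_type]
    have hFinj : ∀ x, F.mulVec x = 0 → x = 0 := by
      intro x hx
      rw [hFv] at hx
      have h1 := hC'inj _ hx
      funext i
      exact congrFun h1 (Sum.inr i)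
    have h1 := gram (Fᵀ * F) (posDef_gram F hFinj) (minSq (A⁻¹)ᵀ) (minSq_nonneg _) (by
      intro w hw
      rw [← sum_sq, hFv]
      have h2 : (Sum.elim (0 : Fin a → ℝ) (fun j => ((w j : ℤ) : ℝ)) : Fin a ⊕ Fin b → ℝ) =
          fun j => (((Sum.elim (0 : Fin a → ℤ) w : Fin a ⊕ Fin b → ℤ) j : ℤ) : ℝ) := by
        funext j
        rcases j with j | j <;> simp
      have h3 : (re R')ᵀ = re R'ᵀ := rfl
      rw [h2, hC', ← mulVec_mulVec, h3, ← re_mulVec]
      refine minSq_le _ _ ?_
      intro h0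
      have h4 : Rᵀ * R'ᵀ = 1 := by rw [← transpose_mul, hR'R, transpose_one]
      have h5 : Rᵀ.mulVec (R'ᵀ.mulVec (Sum.elim (0 : Fin a → ℤ) w)) =
          Sum.elim (0 : Fin a → ℤ) w := by
        rw [mulVec_mulVec, h4, one_mulVec]
      rw [h0, mulVec_zero] at h5
      apply hw
      funext i
      exact (congrFun h5 (Sum.inr i)).symm)
    rwa [Fintype.card_fin, hdetF] at h1

end Pool.Agent.J4.H50.Herm
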