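import Mathlib

/-!
# Exterior and symmetric squares of matrices
-/

set_option autoImplicit false

namespace Pool.Agent.J4.H50.Herm

open Matrix Finset

/-- pairs `i < j` -/
abbrev PairLt (N : ℕ) : Type := {p : Fin N × Fin N // p.1 < p.2}

/-- pairs `i ≤ j` -/
abbrev PairLe (N : ℕ) : Type := {p : Fin N × Fin N // p.1 ≤ p.2}

section pairs

variable {α : Type} [CommMonoid α] {N : ℕ}

theorem prod_pairs (F : Fin N × Fin N → α) :
    ∏ x, F x = (∏ p : PairLt N, F p.1 * F p.1.swap) * ∏ r, F (r, r) := by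
  classical
  have h1 : ∏ x, F x = (∏ x ∈ univ.filter (fun x : Fin N × Fin N => x.1 < x.2), F x) *
      ∏ x ∈ univ.filter (fun x : Fin N × Fin N => ¬ x.1 < x.2), F x :=
    (prod_filter_mul_prod_filter_not _ _ _).symm
  have h2 : ∏ x ∈ univ.filter (fun x : Fin N × Fin N => ¬ x.1 < x.2), F x =
      (∏ x ∈ univ.filter (fun x : Fin N × Fin N => x.2 < x.1), F x) *
      ∏ x ∈ univ.filter (fun x : Fin N × Fin N => x.1 = x.2), F x := by
    rw [← prod_filter_mul_prod_filter_not (univ.filter (fun x : Fin N × Fin N => ¬ x.1 < x.2))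
      (fun x => x.2 < x.1), filter_filter, filter_filter]
    congr 1
    · refine prod_congr ?_ fun _ _ => rfl
      ext x
      simp only [mem_filter, mem_univ, true_and, not_lt]
      exact ⟨fun h => h.2, fun h => ⟨h.le, h⟩⟩
    · refine prod_congr ?_ fun _ _ => rfl
      ext x
      simp only [mem_filter, mem_univ, true_and, not_lt]
      exact ⟨fun h => le_antisymm h.2 h.1, fun h => ⟨h.ge, h.le⟩⟩
  have h3 : ∏ x ∈ univ.filter (fun x : Fin N × Fin N => x.2 < x.1), F x =
      ∏ x ∈ univ.filter (fun x : Fin N × Fin N => x.1 < x.2), F x.swap := by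
    refine prod_nbij' (fun x => x.swap) (fun x => x.swap) ?_ ?_ ?_ ?_ ?_
    · intro x hx
      simpa using hx
    · intro x hx
      simpa using hx
    · intro x _
      simp
    · intro x _
      simp
    · intro x _
      simp
  have h4 : ∏ x ∈ univ.filter (fun x : Fin N × Fin N => x.1 = x.2), F x = ∏ r, F (r, r) := by
    refine prod_nbij' (fun x => x.1) (fun r => (r, r)) ?_ ?_ ?_ ?_ ?_
    · intro x _
      simp
    · intro r _
      simp
    · rintro ⟨a, b⟩ hx
      simp only [mem_filter, mem_univ, true_and] at hx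
      simp [hx]
    · intro r _
      rfl
    · rintro ⟨a, b⟩ hx
      simp only [mem_filter, mem_univ, true_and] at hx
      simp [hx]
  have h5 : ∀ H : Fin N × Fin N → α,
      ∏ x ∈ univ.filter (fun x : Fin N × Fin N => x.1 < x.2), H x = ∏ p : PairLt N, H p.1 :=
    fun H => prod_subtype _ (fun x => by simp) H
  rw [h1, h2, h3, h4, h5, h5, ← mul_assoc, prod_mul_distrib]

theorem prod_le_pairs (H : Fin N × Fin N → α) :
    ∏ p : PairLe N, H p.1 = (∏ p : PairLt N, H p.1) * ∏ r, H (r, r) := by
  classical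
  have h5 : ∀ H : Fin N × Fin N → α,
      ∏ x ∈ univ.filter (fun x : Fin N × Fin N => x.1 < x.2), H x = ∏ p : PairLt N, H p.1 :=
    fun H => prod_subtype _ (fun x => by simp) H
  have h6 : ∀ H : Fin N × Fin N → α,
      ∏ x ∈ univ.filter (fun x : Fin N × Fin N => x.1 ≤ x.2), H x = ∏ p : PairLe N, H p.1 :=
    fun H => prod_subtype _ (fun x => by simp) H
  have h4 : ∏ x ∈ univ.filter (fun x : Fin N × Fin N => x.1 = x.2), H x = ∏ r, H (r, r) := by
    refine prod_nbij' (fun x => x.1) (fun r => (r, r)) ?_ ?_ ?_ ?_ ?_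
    · intro x _
      simp
    · intro r _
      simp
    · rintro ⟨a, b⟩ hx
      simp only [mem_filter, mem_univ, true_and] at hx
      simp [hx]
    · intro r _
      rfl
    · rintro ⟨a, b⟩ hx
      simp only [mem_filter, mem_univ, true_and] at hx
      simp [hx]
  rw [← h6, ← h5, ← h4, ← prod_filter_mul_prod_filter_not
    (univ.filter (fun x : Fin N × Fin N => x.1 ≤ x.2)) (fun x => x.1 < x.2), filter_filter,
    filter_filter]
  congr 1
  · refine prod_congr ?_ fun _ _ => rfl
    ext x
    simp only [mem_filter, mem_univ, true_and]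
    exact ⟨fun h => h.2, fun h => ⟨h.le, h⟩⟩
  · refine prod_congr ?_ fun _ _ => rfl
    ext x
    simp only [mem_filter, mem_univ, true_and, not_lt]
    exact ⟨fun h => le_antisymm h.1 h.2, fun h => ⟨h.le, h.ge⟩⟩

end pairs

theorem sum_pairs {N : ℕ} (f : Fin N → Fin N → ℝ) :
    ∑ r, ∑ s, f r s = (∑ p : PairLt N, (f p.1.1 p.1.2 + f p.1.2 p.1.1)) + ∑ r, f r r := by
  have h := prod_pairs (α := Multiplicative ℝ) (N := N) (fun x => Multiplicative.ofAdd (f x.1 x.2))
  rw [← Fintype.sum_prod_type']
  exact congrArg Multiplicative.toAdd h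

theorem sum_le_pairs {N : ℕ} (H : Fin N × Fin N → ℝ) :
    ∑ p : PairLe N, H p.1 = (∑ p : PairLt N, H p.1) + ∑ r, H (r, r) := by
  have h := prod_le_pairs (α := Multiplicative ℝ) (N := N) (fun x => Multiplicative.ofAdd (H x))
  exact congrArg Multiplicative.toAdd h

/-- exterior square -/
def ext2 {a b : ℕ} (A : Matrix (Fin a) (Fin b) ℝ) : Matrix (PairLt a) (PairLt b) ℝ :=
  fun p q => A p.1.1 q.1.1 * A p.1.2 q.1.2 - A p.1.1 q.1.2 * A p.1.2 q.1.1

/-- symmetric square -/
def sym2 {a b : ℕ} (A : Matrix (Fin a) (Fin b) ℝ) : Matrix (PairLe a) (PairLe b) ℝ :=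
  fun p q => A p.1.1 q.1.1 * A p.1.2 q.1.2 + A p.1.1 q.1.2 * A p.1.2 q.1.1

/-- weights -/
noncomputable def wt (N : ℕ) : PairLe N → ℝ := fun p => if p.1.1 = p.1.2 then 1 / 2 else 1

theorem ext2_mul {a b c : ℕ} (A : Matrix (Fin a) (Fin b) ℝ) (B : Matrix (Fin b) (Fin c) ℝ) :
    ext2 (A * B) = ext2 A * ext2 B := by
  ext p q
  rw [mul_apply]
  have h1 : ext2 (A * B) p q = ∑ r, ∑ s, A p.1.1 r * A p.1.2 s *
      (B r q.1.1 * B s q.1.2 - B r q.1.2 * B s q.1.1) := by
    unfold ext2
    rw [mul_apply, mul_apply, mul_apply, mul_apply, sum_mul_sum, sum_mul_sum,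
      ← sum_sub_distrib]
    refine sum_congr rfl fun r _ => ?_
    rw [← sum_sub_distrib]
    refine sum_congr rfl fun s _ => ?_
    ring
  rw [h1, sum_pairs]
  have h2 : ∑ r, A p.1.1 r * A p.1.2 r * (B r q.1.1 * B r q.1.2 - B r q.1.2 * B r q.1.1) = 0 :=
    sum_eq_zero fun r _ => by ring
  rw [h2, add_zero]
  refine sum_congr rfl fun t _ => ?_
  unfold ext2
  ring

theorem sym2_mul {a b c : ℕ} (A : Matrix (Fin a) (Fin b) ℝ) (B : Matrix (Fin b) (Fin c) ℝ) :
    sym2 (A * B) = sym2 A * (diagonal (wt b) * sym2 B) := by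
  ext p q
  rw [mul_apply]
  have h1 : sym2 (A * B) p q = ∑ r, ∑ s, A p.1.1 r * A p.1.2 s *
      (B r q.1.1 * B s q.1.2 + B r q.1.2 * B s q.1.1) := by
    unfold sym2
    rw [mul_apply, mul_apply, mul_apply, mul_apply, sum_mul_sum, sum_mul_sum,
      ← sum_add_distrib]
    refine sum_congr rfl fun r _ => ?_
    rw [← sum_add_distrib]
    refine sum_congr rfl fun s _ => ?_
    ring
  set H : Fin b × Fin b → ℝ := fun x =>
    (A p.1.1 x.1 * A p.1.2 x.2 + A p.1.1 x.2 * A p.1.2 x.1) * ((if x.1 = x.2 then 1 / 2 else 1) *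
      (B x.1 q.1.1 * B x.2 q.1.2 + B x.1 q.1.2 * B x.2 q.1.1)) with hH
  have h3 : ∑ t : PairLe b, sym2 A p t * (diagonal (wt b) * sym2 B) t q =
      ∑ t : PairLe b, H t.1 := by
    refine sum_congr rfl fun t _ => ?_
    rw [diagonal_mul]
    rfl
  rw [h1, sum_pairs, h3]
  refine Eq.trans ?_ (sum_le_pairs H).symm
  congr 1
  · refine sum_congr rfl fun t _ => ?_
    have ht : t.1.1 ≠ t.1.2 := ne_of_lt t.2
    simp only [hH, if_neg ht]
    ring
  · refine sum_congr rfl fun t _ => ?_
    simp only [hH, if_true]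
    ring

theorem ext2_transpose {a b : ℕ} (A : Matrix (Fin a) (Fin b) ℝ) : ext2 Aᵀ = (ext2 A)ᵀ := by
  ext p q
  simp only [ext2, transpose_apply]
  ring

theorem sym2_transpose {a b : ℕ} (A : Matrix (Fin a) (Fin b) ℝ) : sym2 Aᵀ = (sym2 A)ᵀ := by
  ext p q
  simp only [sym2, transpose_apply]
  ring

/-- multiplicative maps and determinants -/
theorem det_char {N : ℕ} {ι : Type} [Fintype ι] [DecidableEq ι]
    (φ : Matrix (Fin N) (Fin N) ℝ → Matrix ι ι ℝ) (hmul : ∀ A B, φ (A * B) = φ A * φ B)
    (e : ℕ) (hdiag : ∀ d : Fin N → ℝ, (φ (diagonal d)).det = (∏ i, d i) ^ e)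
    (M : Matrix (Fin N) (Fin N) ℝ) : (φ M).det = M.det ^ e := by
  have h1 : (φ 1).det = 1 := by
    have := hdiag (fun _ => 1)
    rw [diagonal_one] at this
    rw [this]
    simp
  refine Matrix.diagonal_transvection_induction (fun M => (φ M).det = M.det ^ e) M ?_ ?_ ?_
  · intro D _
    rw [hdiag, det_diagonal]
  · intro t
    obtain ⟨i, j, hij, c⟩ := t
    have key : ∀ c : ℝ, (φ (transvection i j c)).det = 1 := by
      intro c
      have hne : (φ (transvection i j c)).det ≠ 0 := by
        intro h0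
        have h2 : transvection i j c * transvection i j (-c) = 1 := by
          rw [transvection_mul_transvection_same i j hij, add_neg_cancel, transvection_zero]
        have h3 : (φ (transvection i j c * transvection i j (-c))).det = (φ 1).det := by rw [h2]
        rw [hmul, det_mul, h0, zero_mul, h1] at h3
        exact zero_ne_one h3
      have h2 : (φ (transvection i j (2 * c))).det = (φ (transvection i j c)).det ^ 2 := by
        have h3 : transvection i j (2 * c) = transvection i j c * transvection i j c := by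
          rw [transvection_mul_transvection_same i j hij, two_mul]
        rw [h3, hmul, det_mul, sq]
      set D : Fin N → ℝ := Function.update 1 i 2 with hD
      have hDi : D i = 2 := by simp [hD]
      have hDj : D j = 1 := by
        rw [hD, Function.update_of_ne hij.symm]
        rfl
      have h4 : diagonal D * transvection i j c = transvection i j (2 * c) * diagonal D := by
        unfold transvection
        rw [mul_add, mul_one, add_mul, one_mul]
        congr 1
        ext a b
        rw [diagonal_mul, mul_diagonal]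
        by_cases ha : i = a
        · by_cases hb : j = b
          · subst ha hb
            rw [Matrix.single_apply_same, Matrix.single_apply_same, hDi, hDj, mul_one]
          · rw [Matrix.single_apply_of_col_ne _ _ hb, Matrix.single_apply_of_col_ne _ _ hb]
            ring
        · rw [Matrix.single_apply_of_row_ne ha, Matrix.single_apply_of_row_ne ha]
          ring
      have h5 : (φ (diagonal D)).det ≠ 0 := by
        rw [hdiag]
        refine pow_ne_zero _ (prod_ne_zero_iff.2 fun k _ => ?_)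
        by_cases hk : k = i
        · rw [hk, hDi]
          norm_num
        · rw [hD, Function.update_of_ne hk]
          simp
      have h6 : (φ (diagonal D * transvection i j c)).det =
          (φ (transvection i j (2 * c) * diagonal D)).det := by rw [h4]
      rw [hmul, hmul, det_mul, det_mul, h2, mul_comm] at h6
      have h7 := mul_right_cancel₀ h5 h6
      have h8 : (φ (transvection i j c)).det * 1 =
          (φ (transvection i j c)).det * (φ (transvection i j c)).det := by
        rw [mul_one, ← sq]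
        exact h7
      exact (mul_left_cancel₀ hne h8).symm
    have h2 : (TransvectionStruct.toMatrix ⟨i, j, hij, c⟩) = transvection i j c := rfl
    rw [h2, key, det_transvection_of_ne i j hij, one_pow]
  · intro A B hA hB
    rw [hmul, det_mul, hA, hB, det_mul, mul_pow]

theorem prod_lt_pairs {N : ℕ} (d : Fin N → ℝ) :
    ∏ p : PairLt N, (d p.1.1 * d p.1.2) = (∏ i, d i) ^ (N - 1) := by
  classical
  have h1 := prod_pairs (N := N) (fun x : Fin N × Fin N => if x.1 = x.2 then (1 : ℝ) else d x.1)
  have h2 : ∏ r : Fin N, (if ((r, r) : Fin N × Fin N).1 = ((r, r) : Fin N × Fin N).2 then (1 : ℝ)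
      else d r) = 1 := by simp
  have h3 : ∏ p : PairLt N, (if p.1.1 = p.1.2 then (1 : ℝ) else d p.1.1) *
      (if p.1.swap.1 = p.1.swap.2 then (1 : ℝ) else d p.1.swap.1) =
      ∏ p : PairLt N, (d p.1.1 * d p.1.2) := by
    refine prod_congr rfl fun p _ => ?_
    have hp : p.1.1 ≠ p.1.2 := ne_of_lt p.2
    have hp' : p.1.swap.1 ≠ p.1.swap.2 := hp.symm
    rw [if_neg hp, if_neg hp']
    rfl
  have h4 : ∏ x : Fin N × Fin N, (if x.1 = x.2 then (1 : ℝ) else d x.1) =
      ∏ i, d i ^ (N - 1) := by
    rw [Fintype.prod_prod_type]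
    refine prod_congr rfl fun i _ => ?_
    have h5 : ∏ j, (if i = j then (1 : ℝ) else d i) = ∏ j ∈ univ.erase i, d i := by
      rw [← mul_prod_erase univ (fun j => if i = j then (1 : ℝ) else d i) (mem_univ i)]
      simp only [if_true, one_mul]
      refine prod_congr rfl fun j hj => ?_
      rw [if_neg (ne_of_mem_erase hj).symm]
    rw [h5, prod_const, card_erase_of_mem (mem_univ i), card_univ, Fintype.card_fin]
  rw [← prod_pow, ← h4, h1, h2, mul_one]
  exact h3.symm

theorem ext2_diagonal {N : ℕ} (d : Fin N → ℝ) :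
    ext2 (diagonal d) = diagonal fun p : PairLt N => d p.1.1 * d p.1.2 := by
  ext p q
  obtain ⟨⟨i, j⟩, hij⟩ := p
  obtain ⟨⟨k, l⟩, hkl⟩ := q
  simp only at hij hkl
  simp only [ext2, diagonal_apply, Subtype.mk.injEq, Prod.mk.injEq]
  by_cases h1 : i = k
  · by_cases h2 : j = l
    · subst h1 h2
      have h3 : i ≠ j := ne_of_lt hij
      simp [h3]
    · subst h1
      have h3 : i ≠ l := ne_of_lt hkl
      simp [h2, h3]
  · by_cases h2 : i = l
    · subst h2
      have h3 : j ≠ k := fun h => by
        subst h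
        exact absurd hij (not_lt.2 hkl.le)
      simp [h1, h3]
    · simp [h1, h2]

theorem sym2_diagonal {N : ℕ} (d : Fin N → ℝ) :
    diagonal (wt N) * sym2 (diagonal d) = diagonal fun p : PairLe N => d p.1.1 * d p.1.2 := by
  ext p q
  rw [diagonal_mul]
  obtain ⟨⟨i, j⟩, hij⟩ := p
  obtain ⟨⟨k, l⟩, hkl⟩ := q
  simp only at hij hkl
  simp only [sym2, wt, diagonal_apply, Subtype.mk.injEq, Prod.mk.injEq]
  by_cases h1 : i = k
  · by_cases h2 : j = l
    · subst h1 h2
      by_cases h3 : i = j
      · subst h3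
        simp
        ring
      · simp [h3]
    · subst h1
      by_cases h3 : i = l
      · subst h3
        have h4 : j ≠ i := h2
        simp [h2]
      · simp [h2, h3]
  · by_cases h2 : i = l
    · subst h2
      have h3 : j ≠ k := fun h => by
        subst h
        exact h1 (le_antisymm hij hkl)
      simp [h1, h3]
    · simp [h1, h2]

theorem det_ext2 {N : ℕ} (M : Matrix (Fin N) (Fin N) ℝ) :
    (ext2 M).det = M.det ^ (N - 1) := by
  refine det_char ext2 ext2_mul (N - 1) (fun d => ?_) M
  rw [ext2_diagonal, det_diagonal, prod_lt_pairs]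

theorem prod_le_pairs' {N : ℕ} (d : Fin N → ℝ) :
    ∏ p : PairLe N, (d p.1.1 * d p.1.2) = (∏ i, d i) ^ (N + 1) := by
  have h1 := prod_le_pairs (N := N) (fun x : Fin N × Fin N => d x.1 * d x.2)
  simp only at h1
  rw [h1, prod_lt_pairs, prod_mul_distrib]
  rcases Nat.eq_zero_or_pos N with h | h
  · subst h
    simp
  · rw [← sq, ← pow_add]
    congr 1
    omega

theorem det_sym2 {N : ℕ} (M : Matrix (Fin N) (Fin N) ℝ) :
    (diagonal (wt N) * sym2 M).det = M.det ^ (N + 1) := by
  refine det_char (fun M => diagonal (wt N) * sym2 M) (fun A B => ?_) (N + 1) (fun d => ?_) M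
  · rw [sym2_mul]
    simp only [Matrix.mul_assoc]
  · rw [sym2_diagonal, det_diagonal, prod_le_pairs']

theorem det_wt (N : ℕ) : (diagonal (wt N)).det = (1 / 2) ^ N := by
  rw [det_diagonal]
  have h1 := prod_le_pairs (N := N) (fun x : Fin N × Fin N =>
    if x.1 = x.2 then (1 / 2 : ℝ) else 1)
  have h2 : ∏ p : PairLt N, (if p.1.1 = p.1.2 then (1 / 2 : ℝ) else 1) = 1 := by
    refine prod_eq_one fun p _ => ?_
    rw [if_neg (ne_of_lt p.2)]
  rw [h2, one_mul] at h1
  unfold wt
  rw [h1]
  simp

theorem det_ext2_gram {N : ℕ} (M : Matrix (Fin N) (Fin N) ℝ) :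
    (ext2 (Mᵀ * M)).det = (M.det ^ 2) ^ (N - 1) := by
  rw [det_ext2, det_mul, det_transpose, ← sq]

theorem det_sym2_gram {N : ℕ} (M : Matrix (Fin N) (Fin N) ℝ) :
    (sym2 (Mᵀ * M)).det = 2 ^ N * (M.det ^ 2) ^ (N + 1) := by
  have h1 := det_sym2 (Mᵀ * M)
  rw [det_mul (diagonal (wt N)), det_wt, det_mul, det_transpose, ← sq] at h1
  rw [← h1, ← mul_assoc, ← mul_pow]
  norm_num

end Pool.Agent.J4.H50.Herm
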