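import Pool.Agent.J4.H50.Herm.Sq
import Pool.Agent.J4.H50.Herm.Ball
import Pool.Agent.TH220.HG.Sub

/-!
# Hermite invariants of exterior and symmetric squares
-/

set_option autoImplicit false

namespace Pool.Agent.J4.H50.Herm

open Matrix Module
open Pool.Agent.H160R3.Herm Pool.Agent.R834.HA

/-- the Hermite invariant of the form `G` is at most `c` -/
def BoundedBy {β : Type} [Fintype β] [DecidableEq β] (c : ℝ) (G : Matrix β β ℝ) : Prop :=
  ∀ ν : ℝ, 0 ≤ ν → (∀ w : β → ℤ, w ≠ 0 →
    ν ≤ (fun j => (w j : ℝ)) ⬝ᵥ G.mulVec (fun j => (w j : ℝ))) →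
    ν ^ Fintype.card β ≤ c ^ Fintype.card β * G.det

theorem card_lt (N : ℕ) : 2 * Fintype.card (PairLt N) + N = N * N := by
  have h := sum_pairs (N := N) fun _ _ => 1
  simp only [Finset.sum_const, Finset.card_univ, Fintype.card_fin, nsmul_eq_mul, mul_one] at h
  have h2 : ((N * N : ℕ) : ℝ) = ((2 * Fintype.card (PairLt N) + N : ℕ) : ℝ) := by
    push_cast
    rw [h]
    ring
  exact_mod_cast h2.symm

theorem card_le (N : ℕ) : Fintype.card (PairLe N) = Fintype.card (PairLt N) + N := by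
  have h := sum_le_pairs (N := N) fun _ => 1
  simp only [Finset.sum_const, Finset.card_univ, Fintype.card_fin, nsmul_eq_mul, mul_one] at h
  exact_mod_cast h

/-- the pair `(0, 1)` -/
def q01 : PairLt 2 := ⟨(0, 1), by decide⟩

/-- the pair `(0, 0)` -/
def q00 : PairLe 1 := ⟨(0, 0), le_rfl⟩

theorem form_of_col {β γ : Type} [Fintype β] (G : Matrix β β ℝ) (V : Matrix β γ ℝ) (c : γ) :
    (fun j => V j c) ⬝ᵥ G.mulVec (fun j => V j c) = (Vᵀ * (G * V)) c c := by
  rw [mul_apply]
  rfl

theorem ext_form {N : ℕ} (M : Matrix (Fin N) (Fin N) ℝ) (x y : Fin N → ℝ) :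
    (fun p : PairLt N => x p.1.1 * y p.1.2 - x p.1.2 * y p.1.1) ⬝ᵥ (ext2 (Mᵀ * M)).mulVec
      (fun p : PairLt N => x p.1.1 * y p.1.2 - x p.1.2 * y p.1.1) =
      (∑ i, (M.mulVec x) i ^ 2) * (∑ i, (M.mulVec y) i ^ 2) -
        (∑ i, M.mulVec x i * M.mulVec y i) ^ 2 := by
  set X : Matrix (Fin N) (Fin 2) ℝ := fun i j => if j = 0 then x i else y i with hX
  have h1 : (fun p : PairLt N => x p.1.1 * y p.1.2 - x p.1.2 * y p.1.1) =
      fun p => ext2 X p q01 := by
    funext p
    simp only [ext2, hX, q01, Fin.isValue, if_true, one_ne_zero, if_false]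
    ring
  rw [h1, form_of_col, ← ext2_transpose, ← ext2_mul, ← ext2_mul]
  have h2 : Xᵀ * (Mᵀ * M * X) = (M * X)ᵀ * (M * X) := by
    rw [transpose_mul, Matrix.mul_assoc, Matrix.mul_assoc]
  have h3 : ∀ i, (M * X) i 0 = M.mulVec x i := fun i => by
    rw [mul_apply]
    exact Finset.sum_congr rfl fun j _ => by simp [hX]
  have h4 : ∀ i, (M * X) i 1 = M.mulVec y i := fun i => by
    rw [mul_apply]
    exact Finset.sum_congr rfl fun j _ => by simp [hX]
  rw [h2]
  simp only [ext2, q01, mul_apply (M := (M * X)ᵀ), transpose_apply, h3, h4]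
  have e1 : ∑ i, (M.mulVec x i) ^ 2 = ∑ i, M.mulVec x i * M.mulVec x i :=
    Finset.sum_congr rfl fun i _ => sq _
  have e2 : ∑ i, (M.mulVec y i) ^ 2 = ∑ i, M.mulVec y i * M.mulVec y i :=
    Finset.sum_congr rfl fun i _ => sq _
  have e3 : ∑ i, M.mulVec y i * M.mulVec x i = ∑ i, M.mulVec x i * M.mulVec y i :=
    Finset.sum_congr rfl fun i _ => mul_comm _ _
  rw [e1, e2, e3]
  ring

theorem sym_form {N : ℕ} (M : Matrix (Fin N) (Fin N) ℝ) (x : Fin N → ℝ) :
    (fun p : PairLe N => wt N p * (2 * x p.1.1 * x p.1.2)) ⬝ᵥ (sym2 (Mᵀ * M)).mulVec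
      (fun p : PairLe N => wt N p * (2 * x p.1.1 * x p.1.2)) =
      2 * (∑ i, (M.mulVec x) i ^ 2) ^ 2 := by
  set X : Matrix (Fin N) (Fin 1) ℝ := fun i _ => x i with hX
  have h1 : (fun p : PairLe N => wt N p * (2 * x p.1.1 * x p.1.2)) =
      fun p => (diagonal (wt N) * sym2 X) p q00 := by
    funext p
    rw [diagonal_mul]
    simp only [sym2, hX]
    ring
  rw [h1, form_of_col, transpose_mul, ← sym2_transpose, diagonal_transpose, Matrix.mul_assoc]
  have h5 : sym2 Xᵀ * (diagonal (wt N) * (sym2 (Mᵀ * M) * (diagonal (wt N) * sym2 X))) =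
      sym2 (Xᵀ * (Mᵀ * M * X)) := by
    rw [sym2_mul Xᵀ, sym2_mul (Mᵀ * M)]
  rw [h5]
  have h2 : Xᵀ * (Mᵀ * M * X) = (M * X)ᵀ * (M * X) := by
    rw [transpose_mul, Matrix.mul_assoc, Matrix.mul_assoc]
  have h3 : ∀ i, (M * X) i 0 = M.mulVec x i := fun i => by
    rw [mul_apply]
    exact Finset.sum_congr rfl fun j _ => by simp [hX]
  rw [h2]
  simp only [sym2, q00, mul_apply (M := (M * X)ᵀ), transpose_apply, h3]
  have e1 : ∑ i, (M.mulVec x i) ^ 2 = ∑ i, M.mulVec x i * M.mulVec x i :=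
    Finset.sum_congr rfl fun i _ => sq _
  rw [e1]
  ring

theorem sym_bound {N : ℕ} (hN : 0 < N) {M : Matrix (Fin N) (Fin N) ℝ} (hM : M.det ≠ 0) :
    BoundedBy (2 * hermite N ^ 2) (sym2 (Mᵀ * M)) := by
  intro ν hν0 hν
  obtain ⟨x, hx0, hx⟩ := Pool.Agent.TH220.HG.exists_min hN hM
  unfold Pool.Agent.TH220.HG.nsq at hx
  set v : PairLe N → ℤ := fun p => if p.1.1 = p.1.2 then x p.1.1 * x p.1.2 else
    2 * x p.1.1 * x p.1.2 with hv
  have hv0 : v ≠ 0 := by
    intro h0
    apply hx0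
    funext i
    have := congrFun h0 ⟨(i, i), le_rfl⟩
    simpa [hv] using this
  have h1 := hν v hv0
  have h2 : (fun p => ((v p : ℤ) : ℝ)) =
      fun p : PairLe N => wt N p * (2 * (fun j => (x j : ℝ)) p.1.1 * (fun j => (x j : ℝ)) p.1.2) := by
    funext p
    simp only [hv, wt]
    split_ifs
    · push_cast
      ring
    · push_cast
      ring
  rw [h2] at h1
  replace h1 := h1.trans_eq (sym_form M (fun j => (x j : ℝ)))
  rw [hx] at h1
  have hm := minSq_nonneg M
  have h3 : minSq M ^ N ≤ hermite N ^ N * M.det ^ 2 := by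
    rw [← inv_pow hN hM]
    exact mul_le_mul_of_nonneg_right
      (pow_le_pow_left₀ (inv_nonneg _) (le_hermite hN _ hM) _) (sq_nonneg _)
  set R := Fintype.card (PairLe N) with hR
  have h2R : 2 * R = N * (N + 1) := by
    have e1 := card_lt N
    have e2 := card_le N
    rw [← hR] at e2
    rw [mul_add, mul_one]
    omega
  have hg := hermite_pos hN
  rw [det_sym2_gram]
  calc ν ^ R ≤ (2 * minSq M ^ 2) ^ R := pow_le_pow_left₀ hν0 h1 R
    _ = 2 ^ R * (minSq M ^ N) ^ (N + 1) := by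
        rw [mul_pow, ← pow_mul, h2R, pow_mul]
    _ ≤ 2 ^ R * (hermite N ^ N * M.det ^ 2) ^ (N + 1) := by
        refine mul_le_mul_of_nonneg_left (pow_le_pow_left₀ (by positivity) h3 _) (by positivity)
    _ = (2 * hermite N ^ 2) ^ R * (1 * (M.det ^ 2) ^ (N + 1)) := by
        rw [mul_pow, ← pow_mul, mul_pow 2, ← pow_mul (hermite N) 2, h2R]
        ring
    _ ≤ (2 * hermite N ^ 2) ^ R * (2 ^ N * (M.det ^ 2) ^ (N + 1)) := by
        refine mul_le_mul_of_nonneg_left (mul_le_mul_of_nonneg_right ?_ (by positivity))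
          (by positivity)
        exact one_le_pow₀ (by norm_num)

theorem ext_bound {N : ℕ} (hN : 1 < N) {M : Matrix (Fin N) (Fin N) ℝ} (hM : M.det ≠ 0) :
    BoundedBy (hermite (N - 1) * hermite N) (ext2 (Mᵀ * M)) := by
  intro ν hν0 hν
  have hN0 : 0 < N := by omega
  obtain ⟨x, hx0, hx⟩ := Pool.Agent.TH220.HG.exists_min hN0 hM
  have hmpos := Pool.Agent.TH220.HG.minSq_pos hN0 hM
  unfold Pool.Agent.TH220.HG.nsq at hx
  set m := minSq M with hm
  let B : Matrix (Fin N) (Fin 1) ℤ := fun i _ => x i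
  have hBv : ∀ (v : Fin 1 → ℤ), B.mulVec v = fun i => x i * v 0 := by
    intro v
    funext i
    simp [B, mulVec, dotProduct]
  obtain ⟨i0, hi0⟩ : ∃ i, x i ≠ 0 := by
    by_contra hcon
    push Not at hcon
    exact hx0 (funext hcon)
  have hi0' : (x i0 : ℝ) ≠ 0 := by exact_mod_cast hi0
  have hB : Indep B := by
    intro v hv
    rw [hBv] at hv
    have h2 := congrFun hv i0
    simp only [Pi.zero_apply, mul_eq_zero] at h2
    funext j
    rw [Subsingleton.elim j 0]
    exact h2.resolve_left hi0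
  have hBr : ∀ (s : Fin 1 → ℝ), (B.map (fun z : ℤ => (z : ℝ))).mulVec s =
      fun i => (x i : ℝ) * s 0 := by
    intro s
    funext i
    simp only [mulVec, dotProduct, Fin.sum_univ_one, Matrix.map_apply, Fin.isValue]
    rfl
  obtain ⟨-, -, h3⟩ := exact_ineq hM (show 1 + (N - 1) = N by omega) hB
  have h4 := h3 (ν / m) (by positivity) (by
    intro w s hws
    set a := M.mulVec (fun j => (w j : ℝ)) with ha
    set b := M.mulVec (fun j => (x j : ℝ)) with hb
    have e1 : M.mulVec ((fun j => (w j : ℝ)) - fun i => (x i : ℝ) * s 0) =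
        fun i => a i - s 0 * b i := by
      have : (fun i => (x i : ℝ) * s 0) = s 0 • (fun j => (x j : ℝ)) := by
        funext i
        simp [mul_comm]
      rw [this, mulVec_sub, mulVec_smul]
      rfl
    rw [hBr, e1, div_le_iff₀ hmpos]
    set v : PairLt N → ℤ := fun p => x p.1.1 * w p.1.2 - x p.1.2 * w p.1.1 with hv
    have hall : v = 0 → ∀ j, x i0 * w j = x j * w i0 := by
      intro h0 j
      rcases lt_trichotomy i0 j with h | h | h
      · have := congrFun h0 ⟨(i0, j), h⟩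
        simp only [hv, Pi.zero_apply] at this
        linarith
      · rw [h]
      · have := congrFun h0 ⟨(j, i0), h⟩
        simp only [hv, Pi.zero_apply] at this
        linarith
    have hv0 : v ≠ 0 := by
      intro h0
      apply hws (fun _ => (w i0 : ℝ) / x i0)
      rw [hBr]
      funext j
      have h5 := hall h0 j
      have h6 : (x i0 : ℝ) * w j = x j * w i0 := by exact_mod_cast h5
      field_simp
      linarith
    have h5 := hν v hv0
    have h6 : (fun p => ((v p : ℤ) : ℝ)) = fun p : PairLt N =>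
        (fun j => (x j : ℝ)) p.1.1 * (fun j => (w j : ℝ)) p.1.2 -
          (fun j => (x j : ℝ)) p.1.2 * (fun j => (w j : ℝ)) p.1.1 := by
      funext p
      simp only [hv]
      push_cast
      ring
    rw [h6] at h5
    replace h5 := h5.trans_eq (ext_form M (fun j => (x j : ℝ)) (fun j => (w j : ℝ)))
    rw [← hb, ← ha, hx] at h5
    refine h5.trans ?_
    have h7 : ∑ i, (a i - s 0 * b i) ^ 2 =
        ∑ i, a i ^ 2 - 2 * s 0 * ∑ i, b i * a i + s 0 ^ 2 * ∑ i, b i ^ 2 := by
      rw [Finset.mul_sum, Finset.mul_sum, ← Finset.sum_sub_distrib, ← Finset.sum_add_distrib]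
      exact Finset.sum_congr rfl fun i _ => by ring
    simp only
    rw [h7, hx]
    set c := ∑ i, b i * a i
    nlinarith [sq_nonneg (s 0 * m - c)])
  have h1' : hermite 1 ^ 1 ≤ 1 := by
    rw [pow_one]
    have := hermite_le (n := 1) one_pos
    simpa using this
  have hg1 := hermite_pos (n := N - 1) (by omega)
  have hg := one_le_hermite hN0
  have hg0 := hermite_pos hN0
  have hd : 0 < M.det ^ 2 := by positivity
  have h5 : ν ^ (N - 1) ≤ hermite (N - 1) ^ (N - 1) * M.det ^ 2 * m ^ (N - 2) := by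
    have h6 : m * (ν / m) ^ (N - 1) ≤ hermite (N - 1) ^ (N - 1) * M.det ^ 2 := by
      rw [pow_one] at h4
      refine h4.trans ?_
      calc hermite 1 ^ 1 * hermite (N - 1) ^ (N - 1) * M.det ^ 2 ≤
            1 * hermite (N - 1) ^ (N - 1) * M.det ^ 2 :=
            mul_le_mul_of_nonneg_right (mul_le_mul_of_nonneg_right h1' (by positivity))
              (sq_nonneg _)
        _ = _ := by ring
    have h7 : ν ^ (N - 1) = m * (ν / m) ^ (N - 1) * m ^ (N - 2) := by
      have h8 : m * m ^ (N - 2) = m ^ (N - 1) := by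
        rw [← pow_succ']
        congr 1
        omega
      calc ν ^ (N - 1) = (ν / m * m) ^ (N - 1) := by rw [div_mul_cancel₀ _ hmpos.ne']
        _ = (ν / m) ^ (N - 1) * (m * m ^ (N - 2)) := by rw [mul_pow, h8]
        _ = _ := by ring
    rw [h7]
    exact mul_le_mul_of_nonneg_right h6 (by positivity)
  have h3' : m ^ N ≤ hermite N ^ N * M.det ^ 2 := by
    rw [hm, ← inv_pow hN0 hM]
    exact mul_le_mul_of_nonneg_right
      (pow_le_pow_left₀ (inv_nonneg _) (le_hermite hN0 _ hM) _) (sq_nonneg _)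
  set R := Fintype.card (PairLt N) with hR
  have h2R : R * 2 = (N - 1) * N := by
    have e1 := card_lt N
    rw [← hR] at e1
    have e2 : (N - 1) * N + N = N * N := by
      rw [Nat.sub_mul, one_mul]
      exact Nat.sub_add_cancel (Nat.le_mul_self N)
    omega
  rw [det_ext2_gram]
  have hsq : (ν ^ R) ^ 2 ≤ ((hermite (N - 1) * hermite N) ^ R * (M.det ^ 2) ^ (N - 1)) ^ 2 := by
    calc (ν ^ R) ^ 2 = (ν ^ (N - 1)) ^ N := by rw [← pow_mul, h2R, pow_mul]
      _ ≤ (hermite (N - 1) ^ (N - 1) * M.det ^ 2 * m ^ (N - 2)) ^ N :=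
          pow_le_pow_left₀ (by positivity) h5 N
      _ = hermite (N - 1) ^ ((N - 1) * N) * (M.det ^ 2) ^ N * (m ^ N) ^ (N - 2) := by
          rw [mul_pow, mul_pow, ← pow_mul, ← pow_mul m, ← pow_mul m, mul_comm (N - 2) N]
      _ ≤ hermite (N - 1) ^ ((N - 1) * N) * (M.det ^ 2) ^ N *
            (hermite N ^ N * M.det ^ 2) ^ (N - 2) := by
          refine mul_le_mul_of_nonneg_left (pow_le_pow_left₀ (by positivity) h3' _) (by positivity)
      _ = hermite (N - 1) ^ ((N - 1) * N) * hermite N ^ (N * (N - 2)) *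
            (M.det ^ 2) ^ (N + (N - 2)) := by
          rw [mul_pow, ← pow_mul (hermite N), pow_add]
          ring
      _ ≤ hermite (N - 1) ^ ((N - 1) * N) * hermite N ^ ((N - 1) * N) *
            (M.det ^ 2) ^ (N + (N - 2)) := by
          refine mul_le_mul_of_nonneg_right (mul_le_mul_of_nonneg_left ?_ (by positivity))
            (by positivity)
          apply pow_le_pow_right₀ hg
          rw [mul_comm]
          exact Nat.mul_le_mul_right _ (by omega)
      _ = ((hermite (N - 1) * hermite N) ^ R * (M.det ^ 2) ^ (N - 1)) ^ 2 := by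
          generalize M.det ^ 2 = D
          rw [mul_pow ((hermite (N - 1) * hermite N) ^ R), ← pow_mul, ← pow_mul, h2R, mul_pow]
          congr 2
          omega
  exact (abs_le_of_sq_le_sq' hsq (by positivity)).2

end Pool.Agent.J4.H50.Herm
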