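import Pool.Agent.J4.H50.Herm.SqBound

/-!
# Sublattices that are orthogonal sums of exterior and symmetric squares
-/

set_option autoImplicit false

namespace Pool.Agent.J4.H50.Herm

open Matrix Module Filter
open scoped Topology
open Pool.Agent.H160R3.Herm Pool.Agent.R834.HA

/-- `G` is the Gram matrix of the exterior square of a lattice -/
def IsExt (β : Type) (G : Matrix β β ℝ) : Prop :=
  ∃ (N : ℕ) (M : Matrix (Fin N) (Fin N) ℝ) (f : β ≃ PairLt N),
    G = (ext2 (Mᵀ * M)).submatrix f f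

/-- `G` is the Gram matrix of the symmetric square of a lattice -/
def IsSym (β : Type) (G : Matrix β β ℝ) : Prop :=
  ∃ (N : ℕ) (M : Matrix (Fin N) (Fin N) ℝ) (f : β ≃ PairLe N),
    G = (sym2 (Mᵀ * M)).submatrix f f

/-- The lattice `A ℤⁿ` has a sublattice of index `k` which is an orthogonal sum of lattices whose
Gram matrices satisfy `P`. -/
def HasSum {n : ℕ} (A : Matrix (Fin n) (Fin n) ℝ) (P : ∀ β : Type, Matrix β β ℝ → Prop) (k : ℕ) :
    Prop :=
  ∃ (r : ℕ) (blk : Fin n → Fin r) (U : Matrix (Fin n) (Fin n) ℤ), U.det ≠ 0 ∧ U.det.natAbs = k ∧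
    (∀ x y, blk x ≠ blk y → gramOf A U x y = 0) ∧
    ∀ i, P {x // blk x = i} ((gramOf A U).toSquareBlock blk i)

/-- the forms with property `P` have Hermite invariant at most `C d` for large dimensions `d` -/
def Good (P : ∀ β : Type, Matrix β β ℝ → Prop) (C : ℝ) : Prop :=
  ∃ D : ℝ, ∀ (β : Type) [Fintype β] [DecidableEq β] (G : Matrix β β ℝ), G.det ≠ 0 → P β G →
    ∃ c : ℝ, 0 ≤ c ∧ c ≤ max (C * Fintype.card β) D ∧ BoundedBy c G

theorem BoundedBy.submatrix {β γ : Type} [Fintype β] [DecidableEq β] [Fintype γ] [DecidableEq γ]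
    {c : ℝ} {G : Matrix γ γ ℝ} (h : BoundedBy c G) (f : β ≃ γ) : BoundedBy c (G.submatrix f f) := by
  intro ν hν0 hν
  have h1 := h ν hν0 (by
    intro w hw
    have h2 := hν (w ∘ f) (by
      intro h0
      apply hw
      funext i
      have := congrFun h0 (f.symm i)
      simpa using this)
    refine h2.trans (le_of_eq ?_)
    simp only [dotProduct, mulVec, submatrix_apply, Function.comp_apply]
    rw [← Equiv.sum_comp f]
    refine Finset.sum_congr rfl fun i _ => ?_
    rw [← Equiv.sum_comp f (fun x => G (f i) x * (w x : ℝ))])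
  rw [det_submatrix_equiv_self, Fintype.card_congr f]
  exact h1

theorem pieces {n : ℕ} (hn : 0 < n) {A : Matrix (Fin n) (Fin n) ℝ} (hA : A.det ≠ 0)
    {P : ∀ β : Type, Matrix β β ℝ → Prop} {k : ℕ} (hP : HasSum A P k) {C : ℝ} (hC : 0 < C)
    {D : ℝ} (hD : ∀ (β : Type) [Fintype β] [DecidableEq β] (G : Matrix β β ℝ), G.det ≠ 0 → P β G →
      ∃ c : ℝ, 0 ≤ c ∧ c ≤ max (C * Fintype.card β) D ∧ BoundedBy c G) (hDn : D ≤ C * n) :
    inv A ^ n ≤ (k : ℝ) ^ 2 * (C * n) ^ n := by
  classical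
  obtain ⟨r, blk, B, hB, hk, horth, hpc⟩ := hP
  set B' : Matrix (Fin n) (Fin n) ℝ := B.map (fun z : ℤ => (z : ℝ)) with hB'
  set E := A * B' with hE
  set G := Eᵀ * E with hG
  have hGg : gramOf A B = G := rfl
  rw [hGg] at horth hpc
  have hBd : B'.det = (B.det : ℝ) := re_det B
  have hBd0 : B'.det ≠ 0 := by
    rw [hBd]
    exact_mod_cast hB
  have hEd : E.det ≠ 0 := by
    rw [hE, det_mul]
    exact mul_ne_zero hA hBd0
  have hk2 : (k : ℝ) ^ 2 = (B.det : ℝ) ^ 2 := by
    rw [← hk, Nat.cast_natAbs, Int.cast_abs, sq_abs]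
  have hGd : G.det = A.det ^ 2 * (k : ℝ) ^ 2 := by
    rw [hG, det_mul, det_transpose, hE, det_mul, hBd, hk2]
    ring
  have hpos : G.PosDef := posDef_gram E fun x hx => Matrix.eq_zero_of_mulVec_eq_zero hEd hx
  have hBT : G.BlockTriangular blk := fun i j hij => horth i j hij.ne'
  have hdet : G.det = ∏ k, (G.toSquareBlock blk k).det := hBT.det_fintype
  have hbpos : ∀ i, (G.toSquareBlock blk i).PosDef := fun i =>
    hpos.submatrix Subtype.val_injective
  have hcard : ∀ i, Fintype.card {x // blk x = i} ≤ n := by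
    intro i
    have := Fintype.card_subtype_le (fun x : Fin n => blk x = i)
    rwa [Fintype.card_fin] at this
  have hblock : ∀ i : Fin r, minSq A ^ dims blk i ≤ (C * n) ^ dims blk i *
      (G.toSquareBlock blk i).det := by
    intro i
    obtain ⟨c, hc0, hc1, hc2⟩ := hD _ (G.toSquareBlock blk i) (hbpos i).det_pos.ne' (hpc i)
    have hcn : c ≤ C * n := by
      refine hc1.trans (max_le ?_ hDn)
      have : (Fintype.card {x // blk x = i} : ℝ) ≤ n := by exact_mod_cast hcard i
      exact mul_le_mul_of_nonneg_left this hC.le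
    have h1 := hc2 (minSq A) (minSq_nonneg A) (by
      intro w hw
      set w' : Fin n → ℤ := fun x => if hx : blk x = i then w ⟨x, hx⟩ else 0 with hw'
      have hw0 : w' ≠ 0 := by
        intro h0
        apply hw
        funext x
        have := congrFun h0 x.1
        rw [hw'] at this
        simp only [x.2, dif_pos] at this
        simpa using this
      have hBw : B.mulVec w' ≠ 0 := by
        intro h0
        apply hw0
        exact Matrix.eq_zero_of_mulVec_eq_zero hB h0
      have h1 := minSq_le A (B.mulVec w') hBw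
      refine h1.trans (le_of_eq ?_)
      have e1 : (fun j => ((B.mulVec w') j : ℝ)) = B'.mulVec (fun j => (w' j : ℝ)) := by
        funext j
        simp [hB', mulVec, dotProduct]
      rw [e1, mulVec_mulVec, ← hE, sum_sq, ← hG]
      have e2 : ∀ f : Fin n → ℝ, ∑ x, ((w' x : ℤ) : ℝ) * f x =
          ∑ x : {x // blk x = i}, (w x : ℝ) * f x.1 := by
        intro f
        have e3 : ∑ x, ((w' x : ℤ) : ℝ) * f x =
            ∑ x ∈ Finset.univ.filter (fun x => blk x = i), ((w' x : ℤ) : ℝ) * f x := by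
          rw [Finset.sum_filter]
          refine Finset.sum_congr rfl fun x _ => ?_
          by_cases hx : blk x = i
          · rw [if_pos hx]
          · rw [if_neg hx, hw']
            simp [hx]
        rw [e3, Finset.sum_subtype (Finset.univ.filter (fun x => blk x = i))
          (p := fun x => blk x = i) (fun x => by simp)]
        refine Finset.sum_congr rfl fun x _ => ?_
        rw [hw']
        simp [x.2]
      have e4 : ∀ x, (G.mulVec (fun j => (w' j : ℝ))) x =
          ∑ y : {x // blk x = i}, (w y : ℝ) * G x y.1 := by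
        intro x
        rw [← e2]
        simp only [mulVec, dotProduct]
        exact Finset.sum_congr rfl fun y _ => mul_comm _ _
      change ∑ x, ((w' x : ℤ) : ℝ) * (G.mulVec (fun j => (w' j : ℝ))) x = _
      rw [e2]
      refine Finset.sum_congr rfl fun x _ => ?_
      rw [e4]
      congr 1
      simp only [mulVec, dotProduct]
      exact Finset.sum_congr rfl fun y _ => mul_comm _ _)
    refine h1.trans (mul_le_mul_of_nonneg_right (pow_le_pow_left₀ hc0 hcn _)
      (hbpos i).det_pos.le)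
  have hprod : minSq A ^ n ≤ (C * n) ^ n * G.det := by
    calc minSq A ^ n = ∏ k, minSq A ^ dims blk k := by
          rw [Finset.prod_pow_eq_pow_sum, sum_dims]
      _ ≤ ∏ k, ((C * n) ^ dims blk k * (G.toSquareBlock blk k).det) :=
          Finset.prod_le_prod (fun k _ => pow_nonneg (minSq_nonneg A) _) fun k _ => hblock k
      _ = _ := by rw [Finset.prod_mul_distrib, hdet, Finset.prod_pow_eq_pow_sum, sum_dims]
  have hA2 : 0 < A.det ^ 2 := by positivity
  have h5 : inv A ^ n * A.det ^ 2 ≤ ((k : ℝ) ^ 2 * (C * n) ^ n) * A.det ^ 2 := by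
    rw [inv_pow hn hA]
    refine hprod.trans (le_of_eq ?_)
    rw [hGd]
    ring
  exact le_of_mul_le_mul_right h5 hA2

theorem good_asym {P : ∀ β : Type, Matrix β β ℝ → Prop} {C : ℝ} (hC : 0 < C) (hP : Good P C)
    {t : ℝ} (ht : 0 < t) :
    ∃ n0 : ℕ, ∀ n ≥ n0, ∀ A : Matrix (Fin n) (Fin n) ℝ, A.det ≠ 0 → t * n ≤ inv A →
      ∀ k : ℕ, HasSum A P k → (t / C) ^ n ≤ (k : ℝ) ^ 2 := by
  obtain ⟨D, hD⟩ := hP
  obtain ⟨n1, hn1⟩ := exists_nat_gt (D / C)
  refine ⟨n1 + 1, fun n hn A hA hAt k hT => ?_⟩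
  have hnpos : 0 < n := by omega
  have hn' : (0 : ℝ) < n := by exact_mod_cast hnpos
  have hn1' : (n1 : ℝ) ≤ n := by
    have : n1 ≤ n := by omega
    exact_mod_cast this
  have hDn : D ≤ C * n := by
    rw [div_lt_iff₀ hC] at hn1
    nlinarith
  have h1 := pieces hnpos hA hT hC hD hDn
  have h2 : (t * n) ^ n ≤ (k : ℝ) ^ 2 * (C * n) ^ n := (pow_le_pow_left₀ (by positivity) hAt n).trans h1
  have h3 : (t / C) ^ n * (C * n) ^ n = (t * n) ^ n := by
    rw [← mul_pow]
    congr 1
    field_simp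
  rw [← h3] at h2
  exact le_of_mul_le_mul_right h2 (by positivity)

theorem good_ext {U : ℝ} (hU : upper < U) : Good IsExt (2 * U ^ 2) := by
  have hU0 : 0 < U := lt_trans upper_pos hU
  obtain ⟨N1, hN1⟩ := ev_ratio hU
  refine ⟨(N1 + 1) ^ 2, ?_⟩
  intro β _ _ G hG hE
  obtain ⟨N, M, f, rfl⟩ := hE
  rw [Fintype.card_congr f]
  have hcard := card_lt N
  rcases Nat.lt_or_ge N 2 with hN | hN
  · refine ⟨0, le_rfl, le_max_of_le_right (by positivity), ?_⟩
    have h0 : Fintype.card (PairLt N) = 0 := by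
      have h01 : N = 0 ∨ N = 1 := by omega
      rcases h01 with h | h <;> rw [h] at hcard <;> rw [h] <;> omega
    have h0' : Fintype.card β = 0 := by rw [Fintype.card_congr f]; exact h0
    have he : IsEmpty β := Fintype.card_eq_zero_iff.1 h0'
    intro ν _ _
    rw [h0', det_isEmpty]
    simp
  · have hM : M.det ≠ 0 := by
      intro h0
      apply hG
      rw [det_submatrix_equiv_self, det_ext2_gram, h0, zero_pow two_ne_zero, zero_pow (by omega)]
    have hg1 := hermite_pos (n := N - 1) (by omega)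
    have hg := hermite_pos (n := N) (by omega)
    refine ⟨hermite (N - 1) * hermite N, by positivity, ?_,
      (ext_bound (by omega) hM).submatrix f⟩
    have hcast : ((N - 1 : ℕ) : ℝ) = N - 1 := by
      rw [Nat.cast_sub (by omega)]
      norm_num
    rcases Nat.lt_or_ge N (N1 + 1) with h | h
    · refine le_max_of_le_right ?_
      have h1 : hermite (N - 1) ≤ ((N - 1 : ℕ) : ℝ) := hermite_le (by omega)
      have h2 : hermite N ≤ N := hermite_le (by omega)
      have h3 : (N : ℝ) ≤ N1 + 1 := by exact_mod_cast h.le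
      have hN0 : (0 : ℝ) ≤ N := Nat.cast_nonneg N
      rw [hcast] at h1
      calc hermite (N - 1) * hermite N ≤ N * N :=
            mul_le_mul (by linarith) h2 hg.le hN0
        _ ≤ _ := by nlinarith
    · refine le_max_of_le_left ?_
      have h1 := hN1 (N - 1) (by omega)
      have h2 := hN1 N (by omega)
      rw [hcast] at h1
      have h3 : (2 : ℝ) * Fintype.card (PairLt N) = N * (N - 1) := by
        have : ((2 * Fintype.card (PairLt N) + N : ℕ) : ℝ) = ((N * N : ℕ) : ℝ) := by rw [hcard]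
        push_cast at this
        linarith
      calc hermite (N - 1) * hermite N ≤ (U * (N - 1)) * (U * N) :=
            mul_le_mul h1 h2 hg.le (hg1.le.trans h1)
        _ = U ^ 2 * (N * (N - 1)) := by ring
        _ = 2 * U ^ 2 * Fintype.card (PairLt N) := by rw [← h3]; ring

theorem good_sym {U : ℝ} (hU : upper < U) : Good IsSym (4 * U ^ 2) := by
  have hU0 : 0 < U := lt_trans upper_pos hU
  obtain ⟨N1, hN1⟩ := ev_ratio hU
  refine ⟨2 * (N1 + 1) ^ 2, ?_⟩
  intro β _ _ G hG hE
  obtain ⟨N, M, f, rfl⟩ := hE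
  rw [Fintype.card_congr f]
  have hcard := card_lt N
  have hcard2 := card_le N
  rcases Nat.eq_zero_or_pos N with hN | hN
  · refine ⟨0, le_rfl, le_max_of_le_right (by positivity), ?_⟩
    have h0 : Fintype.card (PairLe N) = 0 := by
      rw [hN] at hcard hcard2
      rw [hN]
      omega
    have h0' : Fintype.card β = 0 := by rw [Fintype.card_congr f]; exact h0
    have he : IsEmpty β := Fintype.card_eq_zero_iff.1 h0'
    intro ν _ _
    rw [h0', det_isEmpty]
    simp
  · have hM : M.det ≠ 0 := by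
      intro h0
      apply hG
      rw [det_submatrix_equiv_self, det_sym2_gram, h0, zero_pow two_ne_zero, zero_pow (by omega),
        mul_zero]
    have hg := hermite_pos hN
    refine ⟨2 * hermite N ^ 2, by positivity, ?_, (sym_bound hN hM).submatrix f⟩
    rcases Nat.lt_or_ge N (N1 + 1) with h | h
    · refine le_max_of_le_right ?_
      have h2 : hermite N ≤ N := hermite_le hN
      have h3 : (N : ℝ) ≤ N1 + 1 := by exact_mod_cast h.le
      have h4 : hermite N ^ 2 ≤ ((N1 : ℝ) + 1) ^ 2 := pow_le_pow_left₀ hg.le (h2.trans h3) 2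
      linarith
    · refine le_max_of_le_left ?_
      have h2 := hN1 N (by omega)
      have h3 : (2 : ℝ) * Fintype.card (PairLe N) = N * (N + 1) := by
        have h5 : ((2 * Fintype.card (PairLt N) + N : ℕ) : ℝ) = ((N * N : ℕ) : ℝ) := by rw [hcard]
        rw [hcard2]
        push_cast at h5 ⊢
        linarith
      have h4 : hermite N ^ 2 ≤ (U * N) ^ 2 := pow_le_pow_left₀ hg.le h2 2
      have hN' : (0 : ℝ) < N := by exact_mod_cast hN
      calc 2 * hermite N ^ 2 ≤ 2 * (U * N) ^ 2 := by linarith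
        _ = 2 * U ^ 2 * (N * N) := by ring
        _ ≤ 2 * U ^ 2 * (N * (N + 1)) := by
            refine mul_le_mul_of_nonneg_left ?_ (by positivity)
            nlinarith
        _ = 4 * U ^ 2 * Fintype.card (PairLe N) := by rw [← h3]; ring

/-- exterior or symmetric squares -/
def IsExtOrSym (β : Type) (G : Matrix β β ℝ) : Prop := IsExt β G ∨ IsSym β G

theorem good_square {U : ℝ} (hU : upper < U) : Good IsExtOrSym (4 * U ^ 2) := by
  have hU0 : 0 < U := lt_trans upper_pos hU
  obtain ⟨D1, h1⟩ := good_ext hU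
  obtain ⟨D2, h2⟩ := good_sym hU
  refine ⟨max D1 D2, ?_⟩
  intro β _ _ G hG hE
  rcases hE with hE | hE
  · obtain ⟨c, hc0, hc1, hc2⟩ := h1 β G hG hE
    refine ⟨c, hc0, hc1.trans (max_le_max ?_ (le_max_left _ _)), hc2⟩
    refine mul_le_mul_of_nonneg_right ?_ (Nat.cast_nonneg _)
    nlinarith [sq_nonneg U]
  · obtain ⟨c, hc0, hc1, hc2⟩ := h2 β G hG hE
    exact ⟨c, hc0, hc1.trans (max_le_max le_rfl (le_max_right _ _)), hc2⟩

/-- the general asymptotic statement, `a = 2` or `a = 4` -/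
theorem square_asym {P : ∀ β : Type, Matrix β β ℝ → Prop} {a : ℝ} (ha : 0 < a)
    (hP : ∀ U : ℝ, upper < U → Good P (a * U ^ 2)) {t c : ℝ} (ht : 0 < t) (hc : 0 < c)
    (hct : c * (a * upper ^ 2) < t) :
    ∃ n0 : ℕ, ∀ n ≥ n0, ∀ A : Matrix (Fin n) (Fin n) ℝ, A.det ≠ 0 → t * n ≤ inv A →
      ∀ k : ℕ, HasSum A P k → c ^ n ≤ (k : ℝ) ^ 2 := by
  set U := √(t / (a * c)) with hU
  have hU0 : 0 < U := Real.sqrt_pos.2 (by positivity)
  have hU2 : U ^ 2 = t / (a * c) := Real.sq_sqrt (by positivity)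
  have hup := upper_pos
  have hlt : upper < U := by
    rw [hU, Real.lt_sqrt hup.le, lt_div_iff₀ (by positivity)]
    linarith
  obtain ⟨n0, h0⟩ := good_asym (C := a * U ^ 2) (by positivity) (hP U hlt) ht
  refine ⟨n0, fun n hn A hA hAt k hT => ?_⟩
  have h1 := h0 n hn A hA hAt k hT
  have e : t / (a * U ^ 2) = c := by
    rw [hU2]
    field_simp
  rwa [e] at h1

theorem square_dense {P : ∀ β : Type, Matrix β β ℝ → Prop} {a : ℝ} (ha : 0 < a)
    (hP : ∀ U : ℝ, upper < U → Good P (a * U ^ 2)) {c : ℝ} (hc : 0 < c)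
    (hc' : c < Real.pi ^ 3 / (2 * a * Real.exp 1)) :
    ∃ n0 : ℕ, ∀ n ≥ n0, ∀ A : Matrix (Fin n) (Fin n) ℝ, A.det ≠ 0 →
      n / (2 * Real.pi * Real.exp 1) ≤ inv A →
      ∀ k : ℕ, HasSum A P k → c ^ n ≤ (k : ℝ) ^ 2 := by
  have hpi := Real.pi_pos
  have he := Real.exp_pos 1
  have hup := upper_pos
  have h1 : c * (a * upper ^ 2) < 1 / (2 * Real.pi * Real.exp 1) := by
    have h2 : upper ^ 2 ≤ (1 / Real.pi ^ 2) ^ 2 := pow_le_pow_left₀ hup.le upper_le 2
    calc c * (a * upper ^ 2) ≤ c * (a * (1 / Real.pi ^ 2) ^ 2) :=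
          mul_le_mul_of_nonneg_left (mul_le_mul_of_nonneg_left h2 ha.le) hc.le
      _ < Real.pi ^ 3 / (2 * a * Real.exp 1) * (a * (1 / Real.pi ^ 2) ^ 2) :=
          mul_lt_mul_of_pos_right hc' (by positivity)
      _ = _ := by field_simp
  obtain ⟨n0, h⟩ := square_asym ha hP (by positivity) hc h1
  refine ⟨n0, fun n hn A hA hAt k hT => h n hn A hA ?_ k hT⟩
  rw [one_div_mul_eq_div]
  exact hAt

theorem square_limit {P : ∀ β : Type, Matrix β β ℝ → Prop} {a : ℝ} (ha : 0 < a)
    (hP : ∀ U : ℝ, upper < U → Good P (a * U ^ 2)) {L : ℝ}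
    (hL : Tendsto (fun n : ℕ => hermite n / n) atTop (𝓝 L)) {c : ℝ} (hc : 0 < c)
    (hc' : c * (a * L) < 1) :
    ∃ (η : ℝ) (n0 : ℕ), 0 < η ∧ ∀ n ≥ n0, ∀ A : Matrix (Fin n) (Fin n) ℝ, A.det ≠ 0 →
      (1 - η) * hermite n ≤ inv A → ∀ k : ℕ, HasSum A P k → c ^ n ≤ (k : ℝ) ^ 2 := by
  have hu : upper = L := hL.limsup_eq
  have hup := upper_pos
  rw [hu] at hup
  set δ := 1 - c * (a * L) with hδ
  have hδ0 : 0 < δ := by linarith
  have hδ1 : δ < 1 := by
    have : 0 < c * (a * L) := by positivity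
    linarith
  set η := δ / 4 with hη
  have hη0 : 0 < η := by positivity
  have h1η : 0 < 1 - η := by linarith
  set t := (1 - η) * ((1 - η) * L) with ht
  have ht0 : 0 < t := by positivity
  have hct : c * (a * upper ^ 2) < t := by
    rw [hu]
    have h1 : c * (a * L ^ 2) = (1 - δ) * L := by
      rw [hδ]
      ring
    rw [h1, ht]
    have : (1 - δ) < (1 - η) * (1 - η) := by
      rw [hη]
      nlinarith
    nlinarith
  obtain ⟨n1, h1⟩ := square_asym ha hP ht0 hc hct
  have hev : ∀ᶠ n : ℕ in atTop, (1 - η) * L ≤ hermite n / n := by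
    have : (1 - η) * L < L := by nlinarith
    exact (hL.eventually (lt_mem_nhds this)).mono fun n hn => hn.le
  obtain ⟨n4, hn4⟩ := eventually_atTop.1 hev
  refine ⟨η, n1 + n4 + 1, hη0, fun n hn A hA hAη k hT => ?_⟩
  have hn' : (0 : ℝ) < n := by
    have : 0 < n := by omega
    exact_mod_cast this
  have hAt : t * n ≤ inv A := by
    refine le_trans ?_ hAη
    have h5 := hn4 n (by omega)
    rw [le_div_iff₀ hn'] at h5
    calc t * n = (1 - η) * ((1 - η) * L * n) := by rw [ht]; ring
      _ ≤ _ := mul_le_mul_of_nonneg_left h5 h1η.le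
  exact h1 n (by omega) A hA hAt k hT

end Pool.Agent.J4.H50.Herm
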