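import Pool.Agent.J4.H50.Herm.Quot
import Pool.Agent.R834.HA.Asym

/-!
# Stability
-/

set_option autoImplicit false

namespace Pool.Agent.J4.H50.Herm

open Matrix Module Filter
open Pool.Agent.H160R3.Herm Pool.Agent.R834.HA

/-- the upper limit of `γ_n / n` -/
noncomputable def upper : ℝ := limsup (fun n : ℕ => hermite n / n) atTop

/-- the columns of the integral matrix `B` are linearly independent -/
def Indep {n m : ℕ} (B : Matrix (Fin n) (Fin m) ℤ) : Prop :=
  ∀ w : Fin m → ℤ, B.mulVec w = 0 → w = 0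

theorem bddU : IsBoundedUnder (· ≤ ·) atTop ratio := isBoundedUnder_of ⟨1, ratio_le_one⟩

theorem bddL : IsBoundedUnder (· ≥ ·) atTop ratio := isBoundedUnder_of ⟨0, ratio_nonneg⟩

theorem upper_eq : upper = limsup ratio atTop := rfl

theorem upper_pos : 0 < upper := by
  have h1 : (1 / 144 : ℝ) ≤ liminf ratio atTop := by
    refine le_liminf_of_le bddU.isCoboundedUnder_ge ?_
    filter_upwards [eventually_gt_atTop 0] with n hn
    exact ratio_ge hn
  have h2 : liminf ratio atTop ≤ limsup ratio atTop := liminf_le_limsup bddU bddL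
  rw [upper_eq]
  linarith

theorem ev_ratio {U : ℝ} (h : upper < U) : ∃ m0 : ℕ, ∀ m ≥ m0, hermite m ≤ U * m := by
  rw [upper_eq] at h
  obtain ⟨m0, hm0⟩ := eventually_atTop.1 (eventually_lt_of_limsup_lt h bddU)
  refine ⟨m0 + 1, fun m hm => ?_⟩
  have h1 := hm0 m (by omega)
  have h2 : (0 : ℝ) < m := by
    have : 0 < m := by omega
    exact_mod_cast this
  rw [ratio, div_lt_iff₀ h2] at h1
  exact h1.le

theorem hermite_le_self (m : ℕ) : m = 0 ∨ hermite m ≤ m := by
  rcases Nat.eq_zero_or_pos m with h | h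
  · exact Or.inl h
  · right
    have h1 := ratio_le_one m
    have h2 : (0 : ℝ) < m := by exact_mod_cast h
    rw [ratio, div_le_one h2] at h1
    exact h1

theorem minSq_eq {n : ℕ} {A : Matrix (Fin n) (Fin n) ℝ} (hA : A.det ≠ 0) :
    minSq A = inv A * |A.det| ^ ((2 : ℝ) / n) := by
  have h1 : 0 < |A.det| := abs_pos.2 hA
  have h2 : |A.det| ^ ((2 : ℝ) / n) ≠ 0 := (Real.rpow_pos_of_pos h1 _).ne'
  unfold Pool.Agent.R834.HA.inv
  rw [div_mul_cancel₀ _ h2]

theorem sub_bound {n m : ℕ} {A : Matrix (Fin n) (Fin n) ℝ} (hA : A.det ≠ 0)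
    {B : Matrix (Fin n) (Fin m) ℤ} (hB : Indep B) {x : ℝ} (hx : 0 ≤ x)
    (h : m = 0 ∨ x * hermite m ≤ inv A) :
    x ^ m * |A.det| ^ (2 * m / n : ℝ) ≤ (gramOf A B).det := by
  obtain ⟨b, g, s, hab, hg, hs, hgs, hgB, h1, -, -⟩ := split_all A hA B hB
  have hd : 0 < |A.det| := abs_pos.2 hA
  have hp := pow_self_pos m
  have hpow : (|A.det| ^ ((2 : ℝ) / n)) ^ m = |A.det| ^ (2 * m / n : ℝ) := by
    rw [← Real.rpow_natCast, ← Real.rpow_mul hd.le]
    congr 1
    ring
  have h2 : (x * hermite m) ^ m ≤ inv A ^ m := by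
    rcases h with h | h
    · subst h
      simp
    · rcases Nat.eq_zero_or_pos m with h0 | h0
      · subst h0
        simp
      · exact pow_le_pow_left₀ (mul_nonneg hx (hermite_pos h0).le) h m
  rw [minSq_eq hA, mul_pow, hpow] at h1
  rw [mul_pow] at h2
  have hD : 0 < |A.det| ^ (2 * m / n : ℝ) := Real.rpow_pos_of_pos hd _
  refine le_of_mul_le_mul_left ?_ hp
  calc hermite m ^ m * (x ^ m * |A.det| ^ (2 * m / n : ℝ)) =
        x ^ m * hermite m ^ m * |A.det| ^ (2 * m / n : ℝ) := by ring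
    _ ≤ inv A ^ m * |A.det| ^ (2 * m / n : ℝ) := mul_le_mul_of_nonneg_right h2 hD.le
    _ ≤ hermite m ^ m * g := h1
    _ ≤ hermite m ^ m * (gramOf A B).det := mul_le_mul_of_nonneg_left hgB hp.le

theorem dual_det {n : ℕ} {A : Matrix (Fin n) (Fin n) ℝ} : ((A⁻¹)ᵀ).det = (A.det)⁻¹ := by
  rw [det_transpose, det_nonsing_inv, Ring.inverse_eq_inv']

theorem dual_bound {n m : ℕ} (hn : 0 < n) {A : Matrix (Fin n) (Fin n) ℝ} (hA : A.det ≠ 0)
    {B : Matrix (Fin n) (Fin m) ℤ} (hB : Indep B) {x : ℝ} (hx : 0 ≤ x)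
    (h : n ≤ m ∨ x * hermite (n - m) ≤ inv (A⁻¹)ᵀ) :
    m ≤ n ∧ x ^ (n - m) * |A.det| ^ (2 * m / n : ℝ) ≤ (gramOf A B).det := by
  obtain ⟨b, g, s, hab, hg, hs, hgs, hgB, -, -, h1⟩ := split_all A hA B hB
  have hb : n - m = b := by omega
  have hmn : m ≤ n := by omega
  refine ⟨hmn, ?_⟩
  rw [hb] at h ⊢
  have hd : 0 < |A.det| := abs_pos.2 hA
  have hn' : (0 : ℝ) < n := by exact_mod_cast hn
  have hp := pow_self_pos b
  have hA' : ((A⁻¹)ᵀ).det ≠ 0 := by
    rw [dual_det]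
    exact inv_ne_zero hA
  have habs : |((A⁻¹)ᵀ).det| = |A.det|⁻¹ := by rw [dual_det, abs_inv]
  have hpow : (|((A⁻¹)ᵀ).det| ^ ((2 : ℝ) / n)) ^ b = |A.det| ^ (-(2 * b / n) : ℝ) := by
    rw [habs, ← Real.rpow_natCast, ← Real.rpow_mul (inv_nonneg.2 hd.le), Real.inv_rpow hd.le,
      Real.rpow_neg hd.le]
    congr 2
    ring
  have h2 : (x * hermite b) ^ b ≤ inv (A⁻¹)ᵀ ^ b := by
    rcases Nat.eq_zero_or_pos b with h0 | h0
    · subst h0
      simp
    · rcases h with h | h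
      · omega
      · exact pow_le_pow_left₀ (mul_nonneg hx (hermite_pos h0).le) h b
  rw [minSq_eq hA', mul_pow, hpow] at h1
  rw [mul_pow] at h2
  have hD : 0 < |A.det| ^ (-(2 * b / n) : ℝ) := Real.rpow_pos_of_pos hd _
  have h3 : x ^ b * |A.det| ^ (-(2 * b / n) : ℝ) ≤ s⁻¹ := by
    refine le_of_mul_le_mul_left ?_ hp
    calc hermite b ^ b * (x ^ b * |A.det| ^ (-(2 * b / n) : ℝ)) =
          x ^ b * hermite b ^ b * |A.det| ^ (-(2 * b / n) : ℝ) := by ring
      _ ≤ inv (A⁻¹)ᵀ ^ b * |A.det| ^ (-(2 * b / n) : ℝ) := mul_le_mul_of_nonneg_right h2 hD.le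
      _ ≤ hermite b ^ b * s⁻¹ := h1
  have h4 : g = A.det ^ 2 * s⁻¹ := by
    rw [hgs]
    field_simp
  have h5 : |A.det| ^ (2 * m / n : ℝ) = A.det ^ 2 * |A.det| ^ (-(2 * b / n) : ℝ) := by
    rw [← sq_abs, ← Real.rpow_natCast, ← Real.rpow_add hd]
    congr 1
    have : (n : ℝ) = m + b := by rw [← hab]; push_cast; ring
    field_simp
    rw [this]
    push_cast
    ring
  calc x ^ b * |A.det| ^ (2 * m / n : ℝ) =
        A.det ^ 2 * (x ^ b * |A.det| ^ (-(2 * b / n) : ℝ)) := by rw [h5]; ring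
    _ ≤ A.det ^ 2 * s⁻¹ := mul_le_mul_of_nonneg_left h3 (sq_nonneg _)
    _ = g := h4.symm
    _ ≤ _ := hgB

/-- **Sublattices.** -/
theorem stab {t c : ℝ} (ht : 0 < t) (hc : 0 ≤ c) (hct : c * upper < t) :
    ∃ m0 n0 : ℕ, ∀ n ≥ n0, ∀ A : Matrix (Fin n) (Fin n) ℝ, A.det ≠ 0 → t * n ≤ inv A →
      ∀ m : ℕ, 0 < m → ∀ B : Matrix (Fin n) (Fin m) ℤ, Indep B →
        (m0 ≤ m → (c * n / m) ^ m * |A.det| ^ (2 * m / n : ℝ) ≤ (gramOf A B).det) ∧
        ((m : ℝ) ≤ c * n → |A.det| ^ (2 * m / n : ℝ) ≤ (gramOf A B).det) := by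
  rcases hc.eq_or_lt with rfl | hc
  · refine ⟨0, 0, fun n _ A hA hAt m hm B hB => ⟨fun _ => ?_, fun h => ?_⟩⟩
    · have h1 := sub_bound hA hB (x := 0) le_rfl (Or.inr (by rw [zero_mul]; exact inv_nonneg A))
      have h2 : (0 * (n : ℝ) / m) = 0 := by ring
      rw [h2]
      exact h1
    · rw [zero_mul] at h
      have h1 : (0 : ℝ) < m := by exact_mod_cast hm
      linarith
  · have h0 : upper < t / c := by
      rw [lt_div_iff₀ hc]
      linarith
    obtain ⟨m0, hm0⟩ := ev_ratio h0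
    obtain ⟨n0, hn0⟩ := exists_nat_gt ((m0 : ℝ) / t)
    refine ⟨m0, n0, fun n hn A hA hAt m hm B hB => ?_⟩
    have hm' : (0 : ℝ) < m := by exact_mod_cast hm
    have hn0' : (n0 : ℝ) ≤ n := by exact_mod_cast hn
    rw [div_lt_iff₀ ht] at hn0
    refine ⟨fun h => ?_, fun h => ?_⟩
    · refine sub_bound hA hB (by positivity) (Or.inr ?_)
      refine le_trans ?_ hAt
      have h1 := hm0 m h
      calc c * n / m * hermite m ≤ c * n / m * (t / c * m) :=
            mul_le_mul_of_nonneg_left h1 (by positivity)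
        _ = t * n := by field_simp
    · have h2 := sub_bound hA hB (x := 1) zero_le_one (Or.inr (by
        rw [one_mul]
        refine le_trans ?_ hAt
        rcases le_or_gt m0 m with h1 | h1
        · refine (hm0 m h1).trans ?_
          calc t / c * m ≤ t / c * (c * n) := mul_le_mul_of_nonneg_left h (by positivity)
            _ = t * n := by field_simp
        · rcases hermite_le_self m with h3 | h3
          · omega
          · have h4 : (m : ℝ) ≤ m0 := by exact_mod_cast h1.le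
            nlinarith))
      rw [one_pow, one_mul] at h2
      exact h2

/-- **Stability.** -/
theorem stable {t t' : ℝ} (ht : 0 < t) (ht' : 0 < t') (h : upper < t + t') :
    ∃ n0 : ℕ, ∀ n ≥ n0, ∀ A : Matrix (Fin n) (Fin n) ℝ, A.det ≠ 0 → t * n ≤ inv A →
      t' * n ≤ inv (A⁻¹)ᵀ → ∀ (m : ℕ) (B : Matrix (Fin n) (Fin m) ℤ), Indep B →
        |A.det| ^ (2 * m / n : ℝ) ≤ (gramOf A B).det := by
  obtain ⟨m0, hm0⟩ := ev_ratio h
  obtain ⟨n0, hn0⟩ := exists_nat_gt ((m0 : ℝ) / min t t')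
  refine ⟨n0 + 1, fun n hn A hA hAt hAt' m B hB => ?_⟩
  have hmin : 0 < min t t' := lt_min ht ht'
  have hnpos : 0 < n := by omega
  have hn' : (0 : ℝ) < n := by exact_mod_cast hnpos
  have hn0' : (n0 : ℝ) ≤ n := by
    have : n0 ≤ n := by omega
    exact_mod_cast this
  rw [div_lt_iff₀ hmin] at hn0
  have key : ∀ (d : ℕ) (s : ℝ), min t t' ≤ s → (t + t') * d ≤ s * n → d = 0 ∨ hermite d ≤ s * n := by
    intro d s hs hd
    rcases le_or_gt m0 d with h1 | h1
    · exact Or.inr ((hm0 d h1).trans hd)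
    · rcases hermite_le_self d with h3 | h3
      · exact Or.inl h3
      · right
        have h4 : (d : ℝ) ≤ m0 := by exact_mod_cast h1.le
        have h5 : min t t' * n ≤ s * n := mul_le_mul_of_nonneg_right hs hn'.le
        nlinarith
  have hmn : m ≤ n := (dual_bound hnpos hA hB (x := 0) le_rfl
    (Or.inr (by rw [zero_mul]; exact inv_nonneg _))).1
  rcases le_or_gt ((t + t') * m) (t * n) with h1 | h1
  · have h2 := sub_bound hA hB (x := 1) zero_le_one (by
      rw [one_mul]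
      rcases key m t (min_le_left _ _) h1 with h3 | h3
      · exact Or.inl h3
      · exact Or.inr (h3.trans hAt))
    rw [one_pow, one_mul] at h2
    exact h2
  · have hcast : ((n - m : ℕ) : ℝ) = n - m := Nat.cast_sub hmn
    have h2 := (dual_bound hnpos hA hB (x := 1) zero_le_one (by
      rw [one_mul]
      rcases key (n - m) t' (min_le_right _ _) (by rw [hcast]; nlinarith) with h3 | h3
      · left
        omega
      · exact Or.inr (h3.trans hAt'))).2
    rw [one_pow, one_mul] at h2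
    exact h2

/-- **Quotients.** -/
theorem quotient {ε t : ℝ} (hε : 0 < ε) (ht : 0 < t) :
    ∃ n0 : ℕ, ∀ n ≥ n0, ∀ A : Matrix (Fin n) (Fin n) ℝ, A.det ≠ 0 → t * n ≤ inv A →
      ∀ a b : ℕ, a + b = n → 0 < b → ∀ B : Matrix (Fin n) (Fin a) ℤ, Indep B →
        ∃ (w : Fin n → ℤ) (s : Fin a → ℝ), (∀ s', (fun j => (w j : ℝ)) ≠ (re B).mulVec s') ∧
          ∑ i, (A.mulVec ((fun j => (w j : ℝ)) - (re B).mulVec s)) i ^ 2 ≤
            Real.exp ((Real.log (upper / t) + ε - Real.binEntropy ((b : ℝ) / n)) * (n / b)) *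
              minSq A := by
  have hup := upper_pos
  have hexp : 1 < Real.exp (ε / 3) := by
    rw [Real.one_lt_exp_iff]
    positivity
  have hU : ∀ᶠ m : ℕ in atTop, ratio m ≤ upper * Real.exp (ε / 3) := by
    have h1 : upper < upper * Real.exp (ε / 3) := by nlinarith
    rw [upper_eq] at h1 ⊢
    exact (eventually_lt_of_limsup_lt h1 bddU).mono fun m hm => hm.le
  obtain ⟨n0, hn0, hc⟩ := core hU (show 0 < ε / 3 by positivity)
  refine ⟨n0, fun n hn A hA hAt a b hab hb B hB => ?_⟩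
  have hnpos : 0 < n := lt_of_lt_of_le hn0 hn
  have hn' : (0 : ℝ) < n := by exact_mod_cast hnpos
  have hb' : (0 : ℝ) < b := by exact_mod_cast hb
  set L := (Real.log (upper / t) + ε - Real.binEntropy ((b : ℝ) / n)) with hL
  set θ := Real.exp (L * (n / b)) with hθ
  have hθ0 : 0 < θ := Real.exp_pos _
  by_contra hcon
  obtain ⟨b', g, s, hab', hg, hs, hgs, -, h1, h2, -⟩ := split_all A hA B hB
  have hbb : b' = b := by omega
  subst hbb
  have h3 := h2 (θ * minSq A) (mul_nonneg hθ0.le (minSq_nonneg A)) (by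
    intro w s hw
    by_contra hlt
    exact hcon ⟨w, s, hw, (not_le.1 hlt).le⟩)
  have hd2 : 0 < A.det ^ 2 := by positivity
  have hpa := pow_self_pos a
  have hpb := pow_self_pos b'
  have h4 : θ ^ b' * minSq A ^ n ≤ hermite a ^ a * hermite b' ^ b' * A.det ^ 2 := by
    have h5 : θ ^ b' * minSq A ^ n = minSq A ^ a * (θ * minSq A) ^ b' := by
      have h6 : minSq A ^ n = minSq A ^ (a + b') := congrArg (fun k => minSq A ^ k) hab.symm
      rw [h6, pow_add, mul_pow]
      ring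
    rw [h5, hgs]
    calc minSq A ^ a * (θ * minSq A) ^ b' ≤ (hermite a ^ a * g) * (hermite b' ^ b' * s) :=
          mul_le_mul h1 h3 (pow_nonneg (mul_nonneg hθ0.le (minSq_nonneg A)) _) (by positivity)
      _ = _ := by ring
  rw [← inv_pow hnpos hA, ← mul_assoc] at h4
  have h5 := le_of_mul_le_mul_right h4 hd2
  have h6 : inv A ^ n ≤ (Real.exp (-(L * n / 2))) ^ 2 * (hermite a ^ a * hermite b' ^ b') := by
    have h7 : (Real.exp (-(L * n / 2))) ^ 2 = (θ ^ b')⁻¹ := by
      rw [hθ, ← Real.exp_nat_mul, ← Real.exp_nat_mul, ← Real.exp_neg]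
      congr 1
      push_cast
      field_simp
    rw [h7]
    calc inv A ^ n = (θ ^ b')⁻¹ * (θ ^ b' * inv A ^ n) := by
          rw [← mul_assoc, inv_mul_cancel₀ (pow_ne_zero _ hθ0.ne'), one_mul]
      _ ≤ _ := mul_le_mul_of_nonneg_left h5 (by positivity)
  have h8 := hc n hn a b' hab (inv A) t (Real.exp (-(L * n / 2))) ht (Real.exp_pos _) hAt h6
  rw [Real.log_exp] at h8
  have e1 : 2 / (n : ℝ) * -(L * n / 2) = -L := by field_simp
  have e2 : Real.log (upper * Real.exp (ε / 3) / t) = Real.log (upper / t) + ε / 3 := by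
    have : upper * Real.exp (ε / 3) / t = upper / t * Real.exp (ε / 3) := by ring
    rw [this, Real.log_mul (by positivity) (Real.exp_pos _).ne', Real.log_exp]
  rw [e1, e2, hL] at h8
  linarith

end Pool.Agent.J4.H50.Herm
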