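import Pool.Agent.R834.HA.Split

/-!
# Sublattices and quotients of lattices
-/

set_option autoImplicit false

namespace Pool.Agent.J4.H50.Herm

open Matrix Module
open Pool.Agent.H160R3.Herm Pool.Agent.R834.HA

/-- cast of an integral matrix -/
noncomputable def re {m n : Type} (B : Matrix m n ℤ) : Matrix m n ℝ := B.map (fun z : ℤ => (z : ℝ))

theorem re_mul {m n k : Type} [Fintype n] (B : Matrix m n ℤ) (C : Matrix n k ℤ) :
    re (B * C) = re B * re C := by
  ext i j
  simp [re, mul_apply]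

theorem re_one {n : Type} [DecidableEq n] : re (1 : Matrix n n ℤ) = 1 := by
  ext i j
  by_cases h : i = j <;> simp [re, Matrix.one_apply, h]

theorem re_mulVec {m n : Type} [Fintype n] (B : Matrix m n ℤ) (w : n → ℤ) :
    (fun j => ((B.mulVec w) j : ℝ)) = (re B).mulVec (fun j => (w j : ℝ)) := by
  funext j
  simp [re, mulVec, dotProduct]

theorem re_det {n : Type} [Fintype n] [DecidableEq n] (B : Matrix n n ℤ) :
    (re B).det = (B.det : ℝ) :=
  ((Int.castRingHom ℝ).map_det B).symm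

theorem adapted {n a : ℕ} (B : Matrix (Fin n) (Fin a) ℤ)
    (hB : ∀ w : Fin a → ℤ, B.mulVec w = 0 → w = 0) :
    ∃ (b : ℕ) (R : Matrix (Fin n) (Fin a ⊕ Fin b) ℤ) (R' : Matrix (Fin a ⊕ Fin b) (Fin n) ℤ)
      (K : Matrix (Fin a) (Fin a) ℤ), a + b = n ∧ R * R' = 1 ∧ R' * R = 1 ∧ K.det ≠ 0 ∧
      B = R.submatrix id Sum.inl * K := by
  classical
  set N : Submodule ℤ (Fin n → ℤ) := LinearMap.range B.mulVecLin with hN
  have hinj : Function.Injective B.mulVecLin := by
    rw [← LinearMap.ker_eq_bot, LinearMap.ker_eq_bot']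
    intro w hw
    exact hB w hw
  obtain ⟨a', snf⟩ := N.smithNormalForm (Pi.basisFun ℤ (Fin n))
  have ha : a' = a := by
    have h1 : finrank ℤ N = a := by
      rw [hN, LinearMap.finrank_range_of_inj hinj]
      simp
    have h2 := finrank_eq_card_basis snf.bN
    rw [h1, Fintype.card_fin] at h2
    exact h2.symm
  subst ha
  let e1 : Fin a' ≃ Set.range snf.f := Equiv.ofInjective snf.f snf.f.injective
  let b : ℕ := Fintype.card ↑((Set.range snf.f)ᶜ : Set (Fin n))
  let e2 : Fin b ≃ ↑((Set.range snf.f)ᶜ : Set (Fin n)) := (Fintype.equivFin _).symm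
  let e : Fin a' ⊕ Fin b ≃ Fin n := (Equiv.sumCongr e1 e2).trans (Equiv.Set.sumCompl _)
  have he : ∀ i : Fin a', e (Sum.inl i) = snf.f i := by
    intro i
    rfl
  let P : Matrix (Fin n) (Fin n) ℤ := (Pi.basisFun ℤ (Fin n)).toMatrix snf.bM
  let Q : Matrix (Fin n) (Fin n) ℤ := snf.bM.toMatrix (Pi.basisFun ℤ (Fin n))
  have hPQ : P * Q = 1 := Basis.toMatrix_mul_toMatrix_flip _ _
  have hQP : Q * P = 1 := Basis.toMatrix_mul_toMatrix_flip _ _
  have hP : ∀ i j, P i j = snf.bM j i := by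
    intro i j
    simp [P, Basis.toMatrix_apply]
  let y : Fin a' → N := fun j => ⟨B.mulVecLin (Pi.single j 1), ⟨_, rfl⟩⟩
  have hy : ∀ i j, (y j : Fin n → ℤ) i = B i j := by
    intro i j
    simp [y]
  let K : Matrix (Fin a') (Fin a') ℤ := fun i j => snf.a i * snf.bN.repr (y j) i
  have hBK : B = (P.submatrix id e).submatrix id Sum.inl * K := by
    ext i j
    have h1 : (y j : Fin n → ℤ) = ∑ k, (snf.bN.repr (y j) k) • (snf.a k • snf.bM (snf.f k)) := by
      conv_lhs => rw [← snf.bN.sum_repr (y j)]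
      rw [Submodule.coe_sum]
      refine Finset.sum_congr rfl fun k _ => ?_
      rw [Submodule.coe_smul, snf.snf]
    rw [← hy i j, h1, Finset.sum_apply, mul_apply]
    refine Finset.sum_congr rfl fun k _ => ?_
    simp only [Pi.smul_apply, smul_eq_mul, submatrix_apply, id_eq]
    rw [hP, he]
    simp only [K]
    ring
  refine ⟨b, P.submatrix id e, Q.submatrix e id, K, ?_, ?_, ?_, ?_, hBK⟩
  · have := Fintype.card_congr e
    simpa using this
  · rw [Matrix.submatrix_mul_equiv, hPQ]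
    simp
  · have h2 := Matrix.submatrix_mul_equiv Q P (e : Fin a' ⊕ Fin b → Fin n) (Equiv.refl (Fin n))
      (e : Fin a' ⊕ Fin b → Fin n)
    have h3 : Q.submatrix e id * P.submatrix id e = (Q * P).submatrix e e := h2
    rw [h3, hQP]
    exact Matrix.submatrix_one_equiv e
  · intro h0
    obtain ⟨v, hv0, hv⟩ := Matrix.exists_mulVec_eq_zero_iff.2 h0
    apply hv0
    apply hB
    rw [hBK, ← mulVec_mulVec, hv, mulVec_zero]

/-- the Gram matrix of the sublattice of `A ℤⁿ` with the basis `A b₁, …, A b_m`, where the `b_j` are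
the columns of `B` -/
noncomputable def gramOf {n m : ℕ} (A : Matrix (Fin n) (Fin n) ℝ) (B : Matrix (Fin n) (Fin m) ℤ) :
    Matrix (Fin m) (Fin m) ℝ :=
  (A * B.map (fun z : ℤ => (z : ℝ)))ᵀ * (A * B.map (fun z : ℤ => (z : ℝ)))

theorem posDef_gram {n m : Type} [Fintype n] [Fintype m] (D : Matrix n m ℝ)
    (h : ∀ x, D.mulVec x = 0 → x = 0) : (Dᵀ * D).PosDef := by
  have hinj : Function.Injective D.mulVec := by
    intro x y hxy
    have h1 : D.mulVec (x - y) = 0 := by
      rw [mulVec_sub]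
      exact sub_eq_zero.2 hxy
    exact sub_eq_zero.1 (h _ h1)
  have h1 := PosDef.conjTranspose_mul_self D hinj
  have h2 : Dᴴ = Dᵀ := by
    ext i j
    simp
  rwa [h2] at h1

end Pool.Agent.J4.H50.Herm
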