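import Pool.Agent.J4.H50.Herm.Ball

/-!
# Sublattices that are orthogonal sums of tensor products
-/

set_option autoImplicit false

namespace Pool.Agent.J4.H50.Herm

open Matrix Module
open scoped Kronecker
open Pool.Agent.H160R3.Herm Pool.Agent.R834.HA

theorem det_blockDiag {r : ℕ} {β : Fin r → Type} [∀ i, Fintype (β i)] [∀ i, DecidableEq (β i)]
    (D : ∀ i, Matrix (β i) (β i) ℝ) : (blockDiagonal' D).det = ∏ i, (D i).det := by
  have hBT : (blockDiagonal' D).BlockTriangular (Sigma.fst : (Σ i, β i) → Fin r) := by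
    rintro ⟨i, p⟩ ⟨j, q⟩ hij
    exact blockDiagonal'_apply_ne D p q (ne_of_gt hij)
  rw [hBT.det_fintype]
  refine Finset.prod_congr rfl fun k _ => ?_
  let f : β k → {x : Σ i, β i // x.1 = k} := fun p => ⟨⟨k, p⟩, rfl⟩
  have hf : Function.Bijective f := by
    constructor
    · intro p q h
      simpa [f] using h
    · rintro ⟨⟨j, q⟩, h⟩
      subst h
      exact ⟨q, rfl⟩
  let e := Equiv.ofBijective f hf
  have h1 := det_submatrix_equiv_self e ((blockDiagonal' D).toSquareBlock Sigma.fst k)
  rw [← h1]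
  congr 1
  ext p q
  exact blockDiagonal'_apply_eq D k p q

theorem kron_form {m l : ℕ} (P : Matrix (Fin m) (Fin m) ℝ) (Q : Matrix (Fin l) (Fin l) ℝ)
    (x : Fin m → ℝ) (y : Fin l → ℝ) :
    (fun p : Fin m × Fin l => x p.1 * y p.2) ⬝ᵥ (P ⊗ₖ Q).mulVec (fun p => x p.1 * y p.2) =
      (x ⬝ᵥ P.mulVec x) * (y ⬝ᵥ Q.mulVec y) := by
  have h1 : (P ⊗ₖ Q).mulVec (fun p => x p.1 * y p.2) =
      fun p => P.mulVec x p.1 * Q.mulVec y p.2 := by
    funext p
    simp only [mulVec, dotProduct, kroneckerMap_apply]
    rw [Fintype.sum_prod_type, Finset.sum_mul_sum]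
    refine Finset.sum_congr rfl fun i _ => Finset.sum_congr rfl fun j _ => ?_
    ring
  rw [h1]
  simp only [dotProduct]
  rw [Fintype.sum_prod_type, Finset.sum_mul_sum]
  refine Finset.sum_congr rfl fun i _ => Finset.sum_congr rfl fun j _ => ?_
  ring

/-- The lattice `A ℤⁿ` has a sublattice of index `k` which is isometric to an orthogonal sum of
tensor products of lattices, of ranks `m i` and `l i`. -/
def HasTensorSum {n : ℕ} (A : Matrix (Fin n) (Fin n) ℝ) {r : ℕ} (m l : Fin r → ℕ) (k : ℕ) : Prop :=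
  ∃ (U : Matrix (Fin n) (Fin n) ℤ) (e : (Σ i : Fin r, Fin (m i) × Fin (l i)) ≃ Fin n)
    (M : ∀ i, Matrix (Fin (m i)) (Fin (m i)) ℝ) (N : ∀ i, Matrix (Fin (l i)) (Fin (l i)) ℝ),
    U.det ≠ 0 ∧ U.det.natAbs = k ∧
    (gramOf A U).submatrix e e =
      blockDiagonal' fun i => kroneckerMap (· * ·) ((M i)ᵀ * M i) ((N i)ᵀ * N i)

theorem card_sum {n r : ℕ} {m l : Fin r → ℕ} (e : (Σ i : Fin r, Fin (m i) × Fin (l i)) ≃ Fin n) :
    ∑ i, m i * l i = n := by
  have h := Fintype.card_congr e
  rw [Fintype.card_sigma, Fintype.card_fin] at h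
  rw [← h]
  refine Finset.sum_congr rfl fun i _ => ?_
  simp

theorem tensor_ineq {n : ℕ} (hn : 0 < n) {A : Matrix (Fin n) (Fin n) ℝ} (hA : A.det ≠ 0) {r : ℕ}
    {m l : Fin r → ℕ} {k : ℕ} (h : HasTensorSum A m l k) : 0 < k ∧ ∑ i, m i * l i = n ∧
      Pool.Agent.R834.HA.inv A ^ n ≤
        (k : ℝ) ^ 2 * ∏ i, (hermite (m i) * hermite (l i)) ^ (m i * l i) := by
  classical
  obtain ⟨U, e, M, N, hU, hk, hG⟩ := h
  have hsum := card_sum e
  refine ⟨by rw [← hk]; exact Int.natAbs_pos.2 hU, hsum, ?_⟩
  set G := gramOf A U with hGd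
  set D : ∀ i : Fin r, Matrix (Fin (m i) × Fin (l i)) (Fin (m i) × Fin (l i)) ℝ :=
    fun i => ((M i)ᵀ * M i) ⊗ₖ ((N i)ᵀ * N i) with hD
  have hk2 : (k : ℝ) ^ 2 = (U.det : ℝ) ^ 2 := by
    rw [← hk, Nat.cast_natAbs, Int.cast_abs, sq_abs]
  have hGdet : G.det = A.det ^ 2 * (k : ℝ) ^ 2 := by
    rw [hGd, hk2]
    unfold gramOf
    have h1 : (U.map (fun z : ℤ => (z : ℝ))).det = (U.det : ℝ) := re_det U
    rw [det_mul, det_transpose, det_mul, h1]
    ring
  have hk0 : 0 < (k : ℝ) := by
    rw [← hk]
    exact_mod_cast Int.natAbs_pos.2 hU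
  have hA2 : 0 < A.det ^ 2 := by positivity
  have hGpos : 0 < G.det := by
    rw [hGdet]
    positivity
  have hprod : G.det = ∏ i, (D i).det := by
    rw [← det_blockDiag D, ← det_submatrix_equiv_self e G]
    exact congrArg Matrix.det hG
  have hDne : ∀ i, (D i).det ≠ 0 := by
    intro i h0
    rw [hprod, Finset.prod_eq_zero (Finset.mem_univ i) h0] at hGpos
    exact lt_irrefl _ hGpos
  have hDdet : ∀ i, (D i).det = ((M i).det ^ 2) ^ l i * ((N i).det ^ 2) ^ m i := by
    intro i
    rw [hD]
    simp only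
    rw [det_kronecker, det_mul, det_transpose, det_mul, det_transpose, Fintype.card_fin,
      Fintype.card_fin, ← sq, ← sq]
  -- the minima
  have hmin : ∀ i, 0 < m i → 0 < l i → minSq A ≤ minSq (M i) * minSq (N i) := by
    intro i hm hl
    have hxy : ∀ (x : Fin (m i) → ℤ) (y : Fin (l i) → ℤ), x ≠ 0 → y ≠ 0 →
        minSq A ≤ (∑ j, ((M i).mulVec (fun j => (x j : ℝ))) j ^ 2) *
          ∑ j, ((N i).mulVec (fun j => (y j : ℝ))) j ^ 2 := by
      intro x y hx hy
      set v : Fin (m i) × Fin (l i) → ℤ := fun p => x p.1 * y p.2 with hv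
      have hv0 : v ≠ 0 := by
        intro h0
        obtain ⟨a, ha⟩ : ∃ a, x a ≠ 0 := by
          by_contra hcon
          push Not at hcon
          exact hx (funext hcon)
        obtain ⟨b, hb⟩ : ∃ b, y b ≠ 0 := by
          by_contra hcon
          push Not at hcon
          exact hy (funext hcon)
        have := congrFun h0 (a, b)
        simp only [hv, Pi.zero_apply, mul_eq_zero] at this
        tauto
      let f : Fin (m i) × Fin (l i) → Fin n := fun p => e ⟨i, p⟩
      have hf : Function.Injective f := by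
        intro p q hpq
        have h1 := e.injective hpq
        simpa using h1
      set Ui : Matrix (Fin n) (Fin (m i) × Fin (l i)) ℤ := U.submatrix id f with hUi
      set Ci : Matrix (Fin n) (Fin (m i) × Fin (l i)) ℝ :=
        (A * U.map (fun z : ℤ => (z : ℝ))).submatrix id f with hCi
      have hCC : Ciᵀ * Ci = D i := by
        ext p q
        have h1 : (Ciᵀ * Ci) p q = (G.submatrix e e) ⟨i, p⟩ ⟨i, q⟩ := rfl
        rw [h1, hG]
        exact blockDiagonal'_apply_eq D i p q
      have hUv : Ui.mulVec v ≠ 0 := by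
        intro h0
        have hli := (linearIndependent_cols_of_det_ne_zero hU).comp f hf
        rw [Fintype.linearIndependent_iff] at hli
        apply hv0
        funext p
        refine hli v ?_ p
        funext a
        have h1 : (Ui.mulVec v) a = 0 := congrFun h0 a
        simp only [Finset.sum_apply, Function.comp_apply, Pi.smul_apply, smul_eq_mul,
          Pi.zero_apply]
        refine Eq.trans ?_ h1
        simp only [mulVec, dotProduct, hUi, submatrix_apply, id_eq]
        exact Finset.sum_congr rfl fun p _ => mul_comm _ _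
      have h1 := minSq_le A (Ui.mulVec v) hUv
      have h2 : A.mulVec (fun j => ((Ui.mulVec v) j : ℝ)) = Ci.mulVec (fun p => (v p : ℝ)) := by
        have h3 : (fun j => ((Ui.mulVec v) j : ℝ)) = (re Ui).mulVec (fun p => (v p : ℝ)) := by
          funext j
          simp [re, mulVec, dotProduct]
        have h4 : Ci = A * re Ui := by
          ext a p
          rfl
        rw [h3, mulVec_mulVec, h4]
      rw [h2, sum_sq, hCC, hD] at h1
      have h5 : (fun p => ((v p : ℤ) : ℝ)) =
          fun p : Fin (m i) × Fin (l i) => (x p.1 : ℝ) * (y p.2 : ℝ) := by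
        funext p
        simp [hv]
      simp only at h1
      rw [h5] at h1
      rw [sum_sq, sum_sq]
      exact h1.trans_eq (kron_form ((M i)ᵀ * M i) ((N i)ᵀ * N i) (fun j => (x j : ℝ))
        (fun j => (y j : ℝ)))
    have hMdet : (M i).det ≠ 0 := by
      intro h0
      apply hDne i
      rw [hDdet, h0, zero_pow two_ne_zero, zero_pow hl.ne', zero_mul]
    have hNdet : (N i).det ≠ 0 := by
      intro h0
      apply hDne i
      rw [hDdet, h0, zero_pow two_ne_zero, zero_pow hm.ne', mul_zero]
    -- the infimum over x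
    have hnorm : ∀ y : Fin (l i) → ℤ, y ≠ 0 →
        0 < ∑ j, ((N i).mulVec (fun j => (y j : ℝ))) j ^ 2 := by
      intro y hy
      have h0 : (N i).mulVec (fun j => (y j : ℝ)) ≠ 0 := by
        intro h0
        apply hy
        have := Matrix.eq_zero_of_mulVec_eq_zero hNdet h0
        funext j
        have := congrFun this j
        simpa using this
      obtain ⟨j, hj⟩ : ∃ j, (N i).mulVec (fun j => (y j : ℝ)) j ≠ 0 := by
        by_contra hcon
        push Not at hcon
        exact h0 (funext hcon)
      exact lt_of_lt_of_le (by positivity) (Finset.single_le_sum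
        (f := fun j => ((N i).mulVec (fun j => (y j : ℝ))) j ^ 2) (fun _ _ => sq_nonneg _)
        (Finset.mem_univ j))
    have hy1 : ∀ y : Fin (l i) → ℤ, y ≠ 0 →
        minSq A ≤ minSq (M i) * ∑ j, ((N i).mulVec (fun j => (y j : ℝ))) j ^ 2 := by
      intro y hy
      have h1 := hnorm y hy
      rw [← div_le_iff₀ h1]
      refine le_minSq hm (M i) _ fun x hx => ?_
      rw [div_le_iff₀ h1]
      exact hxy x y hx hy
    rcases (minSq_nonneg (M i)).eq_or_lt with h0 | h0
    · have hne : (fun _ : Fin (l i) => (1 : ℤ)) ≠ 0 := by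
        intro h1
        have := congrFun h1 ⟨0, hl⟩
        simp at this
      have h1 := hy1 _ hne
      rw [← h0, zero_mul] at h1
      rw [← h0, zero_mul]
      exact h1
    · rw [← div_le_iff₀' h0]
      refine le_minSq hl (N i) _ fun y hy => ?_
      rw [div_le_iff₀' h0]
      exact hy1 y hy
  -- the blocks
  have hblock : ∀ i, minSq A ^ (m i * l i) ≤
      (hermite (m i) * hermite (l i)) ^ (m i * l i) * (D i).det := by
    intro i
    rcases Nat.eq_zero_or_pos (m i) with hm | hm
    · have h1 : (M i).det = 1 := by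
        have : IsEmpty (Fin (m i)) := by
          rw [hm]
          infer_instance
        exact det_isEmpty
      rw [hDdet, h1]
      simp [hm]
    rcases Nat.eq_zero_or_pos (l i) with hl | hl
    · have h1 : (N i).det = 1 := by
        have : IsEmpty (Fin (l i)) := by
          rw [hl]
          infer_instance
        exact det_isEmpty
      rw [hDdet, h1]
      simp [hl]
    have hMdet : (M i).det ≠ 0 := by
      intro h0
      apply hDne i
      rw [hDdet, h0, zero_pow two_ne_zero, zero_pow hl.ne', zero_mul]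
    have hNdet : (N i).det ≠ 0 := by
      intro h0
      apply hDne i
      rw [hDdet, h0, zero_pow two_ne_zero, zero_pow hm.ne', mul_zero]
    have hMh : minSq (M i) ^ m i ≤ hermite (m i) ^ m i * (M i).det ^ 2 := by
      rw [← inv_pow hm hMdet]
      exact mul_le_mul_of_nonneg_right
        (pow_le_pow_left₀ (inv_nonneg _) (le_hermite hm _ hMdet) _) (sq_nonneg _)
    have hNh : minSq (N i) ^ l i ≤ hermite (l i) ^ l i * (N i).det ^ 2 := by
      rw [← inv_pow hl hNdet]
      exact mul_le_mul_of_nonneg_right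
        (pow_le_pow_left₀ (inv_nonneg _) (le_hermite hl _ hNdet) _) (sq_nonneg _)
    have hM0 := minSq_nonneg (M i)
    have hN0 := minSq_nonneg (N i)
    calc minSq A ^ (m i * l i) ≤ (minSq (M i) * minSq (N i)) ^ (m i * l i) :=
          pow_le_pow_left₀ (minSq_nonneg A) (hmin i hm hl) _
      _ = (minSq (M i) ^ m i) ^ l i * (minSq (N i) ^ l i) ^ m i := by
          rw [mul_pow, pow_mul, mul_comm (m i) (l i), pow_mul]
      _ ≤ (hermite (m i) ^ m i * (M i).det ^ 2) ^ l i *
            (hermite (l i) ^ l i * (N i).det ^ 2) ^ m i := by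
          refine mul_le_mul (pow_le_pow_left₀ (by positivity) hMh _)
            (pow_le_pow_left₀ (by positivity) hNh _) (by positivity) ?_
          have := pow_self_pos (m i)
          positivity
      _ = _ := by
          rw [hDdet, mul_pow, mul_pow, ← pow_mul, ← pow_mul (hermite (l i)), mul_pow,
            mul_comm (l i) (m i)]
          ring
  have hfin : minSq A ^ n ≤ (∏ i, (hermite (m i) * hermite (l i)) ^ (m i * l i)) * G.det := by
    calc minSq A ^ n = ∏ i, minSq A ^ (m i * l i) := by
          rw [Finset.prod_pow_eq_pow_sum, hsum]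
      _ ≤ ∏ i, ((hermite (m i) * hermite (l i)) ^ (m i * l i) * (D i).det) :=
          Finset.prod_le_prod (fun _ _ => pow_nonneg (minSq_nonneg A) _) fun i _ => hblock i
      _ = _ := by rw [Finset.prod_mul_distrib, hprod]
  rw [← inv_pow hn hA, hGdet] at hfin
  refine le_of_mul_le_mul_right (hfin.trans (le_of_eq ?_)) hA2
  ring

end Pool.Agent.J4.H50.Herm
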