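import Pool.Agent.J4.H50.Herm.Tensor

/-!
# Dense lattices do not contain orthogonal sums of tensor products with small index
-/

set_option autoImplicit false

namespace Pool.Agent.J4.H50.Herm

open Matrix Module Filter
open scoped Topology
open Pool.Agent.H160R3.Herm Pool.Agent.R834.HA

/-- each tensor product has a factor, of rank at most the rank of the other one, with
`x γ_d ≤ d` -/
def Factors {r : ℕ} (m l : Fin r → ℕ) (x : ℝ) : Prop :=
  ∀ i, (m i ≤ l i ∧ x * hermite (m i) ≤ m i) ∨ (l i ≤ m i ∧ x * hermite (l i) ≤ l i)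

theorem tensor_general {t x U : ℝ} (ht : 0 < t) (hx : 0 < x) (hU : upper < U) :
    ∃ n0 : ℕ, ∀ n ≥ n0, ∀ A : Matrix (Fin n) (Fin n) ℝ, A.det ≠ 0 →
      t * n ≤ Pool.Agent.R834.HA.inv A → ∀ (r : ℕ) (m l : Fin r → ℕ) (k : ℕ),
        HasTensorSum A m l k → Factors m l x → (t * x / U) ^ n ≤ (k : ℝ) ^ 2 := by
  have hU0 : 0 < U := lt_trans upper_pos hU
  obtain ⟨N, hN⟩ := ev_ratio hU
  obtain ⟨n1, hn1⟩ := exists_nat_gt ((N : ℝ) ^ 2 * x / U)
  refine ⟨n1 + 1, fun n hn A hA hAt r m l k hT hF => ?_⟩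
  have hnpos : 0 < n := by omega
  have hn' : (0 : ℝ) < n := by exact_mod_cast hnpos
  obtain ⟨hk, hsum, hineq⟩ := tensor_ineq hnpos hA hT
  have hn1' : (n1 : ℝ) ≤ n := by
    have : n1 ≤ n := by omega
    exact_mod_cast this
  have hbig : (N : ℝ) ^ 2 ≤ U / x * n := by
    rw [div_lt_iff₀ hU0] at hn1
    rw [div_mul_eq_mul_div, le_div_iff₀ hx]
    nlinarith
  have hle : ∀ i, m i * l i ≤ n := by
    intro i
    rw [← hsum]
    exact Finset.single_le_sum (f := fun i => m i * l i) (fun _ _ => Nat.zero_le _)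
      (Finset.mem_univ i)
  have key : ∀ a b : ℕ, 0 < a → 0 < b → a * b ≤ n → a ≤ b → x * hermite a ≤ a →
      hermite a * hermite b ≤ U / x * n := by
    intro a b ha hb hab hle hxa
    have ha' : (0 : ℝ) < a := by exact_mod_cast ha
    have hb' : (0 : ℝ) < b := by exact_mod_cast hb
    have hga := hermite_pos ha
    have hgb := hermite_pos hb
    have habn : (a : ℝ) * b ≤ n := by exact_mod_cast hab
    rcases le_or_gt N b with h | h
    · have h1 := hN b h
      have h2 : hermite a ≤ a / x := by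
        rw [le_div_iff₀ hx]
        linarith
      calc hermite a * hermite b ≤ a / x * (U * b) :=
            mul_le_mul h2 h1 hgb.le (by positivity)
        _ = U / x * (a * b) := by ring
        _ ≤ U / x * n := mul_le_mul_of_nonneg_left habn (by positivity)
    · have h1 : hermite a ≤ a := by
        rcases hermite_le_self a with h3 | h3
        · omega
        · exact h3
      have h2 : hermite b ≤ b := by
        rcases hermite_le_self b with h3 | h3
        · omega
        · exact h3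
      have h3 : (b : ℝ) ≤ N := by exact_mod_cast h.le
      have h4 : (a : ℝ) ≤ N := by
        have : (a : ℝ) ≤ b := by exact_mod_cast hle
        linarith
      calc hermite a * hermite b ≤ N * N :=
            mul_le_mul (h1.trans h4) (h2.trans h3) hgb.le (by positivity)
        _ = (N : ℝ) ^ 2 := by ring
        _ ≤ _ := hbig
  have hprod : ∏ i, (hermite (m i) * hermite (l i)) ^ (m i * l i) ≤ (U / x * n) ^ n := by
    calc ∏ i, (hermite (m i) * hermite (l i)) ^ (m i * l i) ≤
          ∏ i, (U / x * n) ^ (m i * l i) := by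
          refine Finset.prod_le_prod (fun i _ => ?_) fun i _ => ?_
          · have h1 : ∀ d : ℕ, 0 ≤ hermite d := by
              intro d
              have := ratio_nonneg d
              rcases Nat.eq_zero_or_pos d with h | h
              · subst h
                unfold hermite
                refine Real.iSup_nonneg fun A => ?_
                exact div_nonneg (minSq_nonneg _) (Real.rpow_nonneg (abs_nonneg _) _)
              · exact (hermite_pos h).le
            exact pow_nonneg (mul_nonneg (h1 _) (h1 _)) _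
          · rcases Nat.eq_zero_or_pos (m i) with hm | hm
            · simp [hm]
            rcases Nat.eq_zero_or_pos (l i) with hl | hl
            · simp [hl]
            refine pow_le_pow_left₀ (mul_nonneg (hermite_pos hm).le (hermite_pos hl).le) ?_ _
            rcases hF i with h | h
            · exact key (m i) (l i) hm hl (hle i) h.1 h.2
            · rw [mul_comm]
              exact key (l i) (m i) hl hm (by rw [mul_comm]; exact hle i) h.1 h.2
      _ = _ := by rw [Finset.prod_pow_eq_pow_sum, hsum]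
  have h1 : (t * n) ^ n ≤ (k : ℝ) ^ 2 * (U / x * n) ^ n :=
    (pow_le_pow_left₀ (by positivity) hAt n).trans
      (hineq.trans (mul_le_mul_of_nonneg_left hprod (by positivity)))
  have h2 : (0 : ℝ) < (U / x * n) ^ n := by positivity
  have h3 : (t * x / U) ^ n * (U / x * n) ^ n = (t * n) ^ n := by
    rw [← mul_pow]
    congr 1
    field_simp
  rw [← h3] at h1
  exact le_of_mul_le_mul_right h1 h2

theorem factors_two {r : ℕ} {m l : Fin r → ℕ} (h : ∀ i, 2 ≤ m i ∧ 2 ≤ l i) : Factors m l √3 := by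
  intro i
  rcases le_total (m i) (l i) with h1 | h1
  · exact Or.inl ⟨h1, sqrt_three _ (h i).1⟩
  · exact Or.inr ⟨h1, sqrt_three _ (h i).2⟩

theorem factors_three {r : ℕ} {m l : Fin r → ℕ} (h : ∀ i, 3 ≤ m i ∧ 3 ≤ l i) :
    Factors m l (9 / 4) := by
  intro i
  rcases le_total (m i) (l i) with h1 | h1
  · exact Or.inl ⟨h1, nine_quarters _ (h i).1⟩
  · exact Or.inr ⟨h1, nine_quarters _ (h i).2⟩

theorem exp_of_pow {n k : ℕ} {a b : ℝ} (ha : Real.exp a ≤ b) (h : b ^ n ≤ (k : ℝ) ^ 2) :
    Real.exp (a / 2 * n) ≤ k := by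
  have h1 : Real.exp (a / 2 * n) ^ 2 ≤ (k : ℝ) ^ 2 := by
    refine le_trans (le_of_eq ?_) ((pow_le_pow_left₀ (Real.exp_pos a).le ha n).trans h)
    rw [← Real.exp_nat_mul, ← Real.exp_nat_mul]
    congr 1
    push_cast
    ring
  exact (abs_le_of_sq_le_sq' h1 (Nat.cast_nonneg k)).2

/-- the numerical form -/
theorem dense_tensor_aux {x a : ℝ} (hx : 0 < x)
    (h : Real.exp a < x * Real.pi / (2 * Real.exp 1)) :
    ∃ n0 : ℕ, ∀ n ≥ n0, ∀ A : Matrix (Fin n) (Fin n) ℝ, A.det ≠ 0 →
      n / (2 * Real.pi * Real.exp 1) ≤ Pool.Agent.R834.HA.inv A →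
      ∀ (r : ℕ) (m l : Fin r → ℕ) (k : ℕ), HasTensorSum A m l k → Factors m l x →
        Real.exp (a / 2 * n) ≤ k := by
  have hpi := Real.pi_pos
  have he := Real.exp_pos 1
  have hea := Real.exp_pos a
  set t := 1 / (2 * Real.pi * Real.exp 1) with ht
  have ht0 : 0 < t := by positivity
  have hU : upper < t * x / Real.exp a := by
    refine lt_of_le_of_lt upper_le ?_
    rw [lt_div_iff₀ hea, ht]
    calc 1 / Real.pi ^ 2 * Real.exp a < 1 / Real.pi ^ 2 * (x * Real.pi / (2 * Real.exp 1)) :=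
          mul_lt_mul_of_pos_left h (by positivity)
      _ = _ := by field_simp
  obtain ⟨n0, h0⟩ := tensor_general ht0 hx hU
  refine ⟨n0, fun n hn A hA hAt r m l k hT hF => ?_⟩
  have h1 := h0 n hn A hA (by rw [ht, one_div_mul_eq_div]; exact hAt) r m l k hT hF
  refine exp_of_pow (le_of_eq ?_) h1
  field_simp

theorem dense_tensor_two :
    ∃ n0 : ℕ, ∀ n ≥ n0, ∀ A : Matrix (Fin n) (Fin n) ℝ, A.det ≠ 0 →
      n / (2 * Real.pi * Real.exp 1) ≤ Pool.Agent.R834.HA.inv A →
      ∀ (r : ℕ) (m l : Fin r → ℕ) (k : ℕ), HasTensorSum A m l k →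
        (∀ i, 2 ≤ m i ∧ 2 ≤ l i) → Real.exp (n / 2500) ≤ k := by
  have hs0 : 0 < √(3 : ℝ) := Real.sqrt_pos.2 (by norm_num)
  obtain ⟨n0, h0⟩ := dense_tensor_aux (x := √3) (a := 1 / 1250) hs0 (by
    have h1 : Real.exp (1 / 1250) ≤ 1250 / 1249 := by
      have h2 := Real.one_sub_le_exp_neg (1 / 1250 : ℝ)
      have h3 : Real.exp (-(1 / 1250)) = (Real.exp (1 / 1250))⁻¹ := Real.exp_neg _
      rw [h3] at h2
      have h4 := Real.exp_pos (1 / 1250 : ℝ)
      have h5 : (1 - 1 / 1250) * Real.exp (1 / 1250) ≤ 1 := by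
        have := mul_le_mul_of_nonneg_right h2 h4.le
        rwa [inv_mul_cancel₀ h4.ne'] at this
      rw [le_div_iff₀ (by norm_num)]
      linarith
    have h2 : (1.73205 : ℝ) < √3 := by
      rw [Real.lt_sqrt (by norm_num)]
      norm_num
    have h3 := Real.pi_gt_d6
    have h4 := Real.exp_one_lt_d9
    have he := Real.exp_pos 1
    refine lt_of_le_of_lt h1 ?_
    rw [lt_div_iff₀ (by positivity)]
    have h5 : (1.73205 : ℝ) * 3.141592 < √3 * Real.pi := by
      have hp := Real.pi_pos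
      nlinarith
    have h6 : (5.441394 : ℝ) < 1.73205 * 3.141592 := by norm_num
    linarith)
  refine ⟨n0, fun n hn A hA hAt r m l k hT h2 => ?_⟩
  have h1 := h0 n hn A hA hAt r m l k hT (factors_two h2)
  have e : (1 / 1250 : ℝ) / 2 * n = n / 2500 := by ring
  rwa [e] at h1

theorem dense_tensor_three :
    ∃ n0 : ℕ, ∀ n ≥ n0, ∀ A : Matrix (Fin n) (Fin n) ℝ, A.det ≠ 0 →
      n / (2 * Real.pi * Real.exp 1) ≤ Pool.Agent.R834.HA.inv A →
      ∀ (r : ℕ) (m l : Fin r → ℕ) (k : ℕ), HasTensorSum A m l k →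
        (∀ i, 3 ≤ m i ∧ 3 ≤ l i) → Real.exp (n / 8) ≤ k := by
  obtain ⟨n0, h0⟩ := dense_tensor_aux (x := 9 / 4) (a := 1 / 4) (by norm_num) (by
    have h3 := Real.pi_gt_d6
    have h4 := Real.exp_one_lt_d9
    have he := Real.exp_pos 1
    have h1 : Real.exp (1 / 4) < 1.2995 := by
      have h2 : Real.exp (1 / 4) ^ 4 < 1.2995 ^ 4 := by
        rw [← Real.exp_nat_mul]
        norm_num
        linarith
      exact lt_of_pow_lt_pow_left₀ 4 (by norm_num) h2
    refine lt_trans h1 ?_
    rw [lt_div_iff₀ (by positivity)]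
    linarith)
  refine ⟨n0, fun n hn A hA hAt r m l k hT h2 => ?_⟩
  have h1 := h0 n hn A hA hAt r m l k hT (factors_three h2)
  have e : (1 / 4 : ℝ) / 2 * n = n / 8 := by ring
  rwa [e] at h1

/-- all ranks large -/
theorem tensor_large {t c : ℝ} (ht : 0 < t) (hc : 0 < c) (hct : c * upper ^ 2 < t) :
    ∃ N n0 : ℕ, ∀ n ≥ n0, ∀ A : Matrix (Fin n) (Fin n) ℝ, A.det ≠ 0 →
      t * n ≤ Pool.Agent.R834.HA.inv A → ∀ (r : ℕ) (m l : Fin r → ℕ) (k : ℕ),
        HasTensorSum A m l k → (∀ i, N ≤ m i ∧ N ≤ l i) → c ^ n ≤ (k : ℝ) ^ 2 := by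
  set U := √(t / c) with hU
  have hU0 : 0 < U := Real.sqrt_pos.2 (by positivity)
  have hU2 : U ^ 2 = t / c := Real.sq_sqrt (by positivity)
  have hup := upper_pos
  have hlt : upper < U := by
    rw [hU, Real.lt_sqrt hup.le, lt_div_iff₀ hc]
    linarith
  obtain ⟨N, hN⟩ := ev_ratio hlt
  obtain ⟨n0, h0⟩ := tensor_general ht (x := 1 / U) (by positivity) hlt
  refine ⟨N, n0, fun n hn A hA hAt r m l k hT hm => ?_⟩
  have hF : Factors m l (1 / U) := by
    intro i
    have key : ∀ d : ℕ, N ≤ d → 1 / U * hermite d ≤ d := by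
      intro d hd
      have := hN d hd
      rw [one_div_mul_eq_div, div_le_iff₀ hU0]
      linarith
    rcases le_total (m i) (l i) with h1 | h1
    · exact Or.inl ⟨h1, key _ (hm i).1⟩
    · exact Or.inr ⟨h1, key _ (hm i).2⟩
  have h1 := h0 n hn A hA hAt r m l k hT hF
  have e : t * (1 / U) / U = c := by
    have : t * (1 / U) / U = t / U ^ 2 := by field_simp
    rw [this, hU2]
    field_simp
  rwa [e] at h1

/-- near-optimal lattices, if the limit exists -/
theorem tensor_limit {L : ℝ} (hL : Tendsto (fun n : ℕ => hermite n / n) atTop (𝓝 L)) {δ x : ℝ}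
    (hδ : 0 < δ) (hδ1 : δ < 1) (hx : 0 < x) :
    ∃ (η : ℝ) (n0 : ℕ), 0 < η ∧ ∀ n ≥ n0, ∀ A : Matrix (Fin n) (Fin n) ℝ, A.det ≠ 0 →
      (1 - η) * hermite n ≤ Pool.Agent.R834.HA.inv A → ∀ (r : ℕ) (m l : Fin r → ℕ) (k : ℕ),
        HasTensorSum A m l k → Factors m l x → ((1 - δ) * x) ^ n ≤ (k : ℝ) ^ 2 := by
  have hu : upper = L := hL.limsup_eq
  have hup := upper_pos
  rw [hu] at hup
  set η := δ / 4 with hη
  have hη0 : 0 < η := by positivity
  have hη4 : η < 1 / 4 := by
    rw [hη]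
    linarith
  have h1η : 0 < 1 - η := by linarith
  have h1δ : 0 < 1 - δ := by linarith
  set t := (1 - η) * ((1 - η) * L) with ht
  have ht0 : 0 < t := by positivity
  have hU : upper < t / (1 - δ) := by
    rw [hu, lt_div_iff₀ h1δ]
    have : (1 - δ) < (1 - η) * (1 - η) := by
      rw [hη]
      nlinarith
    nlinarith
  obtain ⟨n1, h1⟩ := tensor_general ht0 hx hU
  have hev : ∀ᶠ n : ℕ in atTop, (1 - η) * L ≤ hermite n / n := by
    have : (1 - η) * L < L := by nlinarith
    exact (hL.eventually (lt_mem_nhds this)).mono fun n hn => hn.le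
  obtain ⟨n4, hn4⟩ := eventually_atTop.1 hev
  refine ⟨η, n1 + n4 + 1, hη0, fun n hn A hA hAη r m l k hT hF => ?_⟩
  have hn' : (0 : ℝ) < n := by
    have : 0 < n := by omega
    exact_mod_cast this
  have hAt : t * n ≤ Pool.Agent.R834.HA.inv A := by
    refine le_trans ?_ hAη
    have h5 := hn4 n (by omega)
    rw [le_div_iff₀ hn'] at h5
    calc t * n = (1 - η) * ((1 - η) * L * n) := by rw [ht]; ring
      _ ≤ _ := mul_le_mul_of_nonneg_left h5 h1η.le
  have h2 := h1 n (by omega) A hA hAt r m l k hT hF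
  have e : t * x / (t / (1 - δ)) = (1 - δ) * x := by field_simp
  rwa [e] at h2

end Pool.Agent.J4.H50.Herm
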